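import Pool.Agent.Lib.MP_d0f9e0_co.AN.Defs

/-!
# (S5): the translation by `v = s₂ - s₁` of the level `c` function
-/

set_option autoImplicit false

namespace Pool.Agent.MP_d0f9e0_co.AN45

open Pool.Agent.Lib.MP_d0f9e0_co Filter Topology
open Pool.MP_d0f9e0_co.CS (ee pp)

section
variable {c : ℕ} {a d : ℤ} {η : ℝ} {E : ℂ → ℤ → ℂ} (h : AN.LC c a d η E)
include h

theorem lc_c0 : (c : ℂ) ≠ 0 := by
  have := h.c_pos
  exact_mod_cast this.ne'

theorem lc_cpos : (0 : ℝ) < c := by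
  have := h.c_pos
  exact_mod_cast this

theorem lc_eta0 : (η : ℂ) ≠ 0 := by
  have := h.one_lt
  have h0 : η ≠ 0 := by linarith
  exact_mod_cast h0

/-- translation by `s₁` written through `v` -/
theorem lc_s1v (z : ℂ) (m : ℤ) (h1 : -η / (c : ℝ) < z.re) (h2 : z.re < 0) :
    E (z + η / c) (m - 1) = (1 - ee (z / η + m / c)) * E (z + (η - 1) / c) (m + a - 1) := by
  have hc := lc_cpos h
  have hcC := lc_c0 h
  have hη := lc_eta0 h
  have r : (z + ((η : ℂ) - 1) / c).re = z.re + (η - 1) / c := by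
    have : ((η : ℂ) - 1) / c = (((η - 1) / c : ℝ) : ℂ) := by push_cast; ring
    rw [this, Complex.add_re, Complex.ofReal_re]
  have e := h.s1 (z + (η - 1) / c) (m + a - 1) (by
    rw [r]
    have : -1 / (c : ℝ) = -η / c + (η - 1) / c := by ring
    linarith) (by rw [r]; linarith)
  have e1 : z + ((η : ℂ) - 1) / c + 1 / c = z + η / c := by ring
  have e2 : m + a - 1 - a = m - 1 := by ring
  rw [e1, e2] at e
  rw [e]
  congr 3
  push_cast
  field_simp
  ring

/-- the translation by `v` near `0` -/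
theorem lc_v (z : ℂ) (m : ℤ) (h1 : -1 / (c : ℝ) < z.re) (h2 : z.re < 0) :
    (1 - ee (z / η + m / c)) * E (z + (η - 1) / c) (m + a - 1) = (1 - ee (z + d * m / c)) * E z m := by
  have hc := lc_cpos h
  have h3 : -η / (c : ℝ) < z.re := by
    have : -η / (c : ℝ) ≤ -1 / c := by
      apply div_le_div_of_nonneg_right _ hc.le
      linarith [h.one_lt]
    linarith
  rw [← lc_s1v h z m h3 h2, h.s2 z m h1 h2]

theorem lc_cont (m : ℤ) (z : ℂ) (h1 : -1 / (c : ℝ) < z.re) (h2 : z.re < η / c) :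
    ContinuousAt (fun w => E w m) z := by
  have ho : IsOpen {z : ℂ | -1 / (c : ℝ) < z.re ∧ z.re < η / c} :=
    (isOpen_lt continuous_const Complex.continuous_re).inter
      (isOpen_lt Complex.continuous_re continuous_const)
  exact ((h.diff m).differentiableAt (ho.mem_nhds ⟨h1, h2⟩)).continuousAt

theorem lc_neg_one_lt : -1 / (c : ℝ) < 0 := by
  have hc := lc_cpos h
  rw [neg_div]
  have : 0 < 1 / (c : ℝ) := by positivity
  linarith

theorem lc_v_strip : -1 / (c : ℝ) < (((η : ℂ) - 1) / c).re ∧ (((η : ℂ) - 1) / c).re < η / c := by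
  have hc := lc_cpos h
  have r : (((η : ℂ) - 1) / c).re = (η - 1) / c := by
    have : ((η : ℂ) - 1) / c = (((η - 1) / c : ℝ) : ℂ) := by push_cast; ring
    rw [this, Complex.ofReal_re]
  rw [r]
  constructor
  · have h1 := lc_neg_one_lt h
    have h2 : 0 < (η - 1) / c := div_pos (by linarith [h.one_lt]) hc
    linarith
  · apply div_lt_div_of_pos_right _ hc
    linarith

theorem lc_tendsto (m : ℤ) :
    Tendsto (fun t : ℝ => E ((t : ℂ) + (η - 1) / c) (m + a - 1)) (𝓝[<] 0)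
      (𝓝 (E ((η - 1) / c) (m + a - 1))) ∧
    Tendsto (fun t : ℝ => E (t : ℂ) m) (𝓝[<] 0) (𝓝 (E 0 m)) := by
  have hc := lc_cpos h
  have h1 := lc_neg_one_lt h
  have h2 := lc_v_strip h
  have t0 : Tendsto (fun t : ℝ => (t : ℂ)) (𝓝[<] 0) (𝓝 0) := by
    have : Tendsto (fun t : ℝ => (t : ℂ)) (𝓝 0) (𝓝 ((0 : ℝ) : ℂ)) :=
      Complex.continuous_ofReal.tendsto 0
    rw [Complex.ofReal_zero] at this
    exact this.mono_left nhdsWithin_le_nhds
  constructor
  · have t1 : Tendsto (fun t : ℝ => (t : ℂ) + (η - 1) / c) (𝓝[<] 0) (𝓝 ((η - 1) / c)) := by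
      have := t0.add_const (((η : ℂ) - 1) / c)
      rw [zero_add] at this
      exact this
    exact (lc_cont h (m + a - 1) _ h2.1 h2.2).tendsto.comp t1
  · have h3 : (0 : ℂ).re < η / c := by
      rw [Complex.zero_re]
      exact div_pos (by linarith [h.one_lt]) hc
    have h4 : -1 / (c : ℝ) < (0 : ℂ).re := by
      rw [Complex.zero_re]
      exact h1
    exact (lc_cont h m 0 h4 h3).tendsto.comp t0

/-- value at `v`: `E(v) = η E(0)` -/
theorem lc_at_v : E ((η - 1) / c) (a - 1) = η * E 0 0 := by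
  have hη := lc_eta0 h
  obtain ⟨t1, t2⟩ := lc_tendsto h 0
  rw [zero_add] at t1
  have hpp : Continuous pp := Pool.MP_d0f9e0_co.CS.pp_differentiable.continuous
  have p0 := Pool.MP_d0f9e0_co.CS.pp_zero
  have t3 : Tendsto (fun t : ℝ => pp ((t : ℂ) / η)) (𝓝[<] 0) (𝓝 (2 * Real.pi * Complex.I)) := by
    rw [← p0]
    have : Tendsto (fun t : ℝ => pp ((t : ℂ) / η)) (𝓝 0) (𝓝 (pp (((0 : ℝ) : ℂ) / η))) :=
      (hpp.comp (Complex.continuous_ofReal.div_const _)).tendsto 0
    rw [Complex.ofReal_zero, zero_div] at this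
    exact this.mono_left nhdsWithin_le_nhds
  have t4 : Tendsto (fun t : ℝ => pp (t : ℂ)) (𝓝[<] 0) (𝓝 (2 * Real.pi * Complex.I)) := by
    rw [← p0]
    have : Tendsto (fun t : ℝ => pp (t : ℂ)) (𝓝 0) (𝓝 (pp ((0 : ℝ) : ℂ))) :=
      (hpp.comp Complex.continuous_ofReal).tendsto 0
    rw [Complex.ofReal_zero] at this
    exact this.mono_left nhdsWithin_le_nhds
  have t5 := (t3.mul t1)
  have t6 := ((t4.mul t2).const_mul (η : ℂ))
  have heq : (fun t : ℝ => pp ((t : ℂ) / η) * E ((t : ℂ) + (η - 1) / c) (0 + a - 1)) =ᶠ[𝓝[<] 0]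
      (fun t : ℝ => (η : ℂ) * (pp (t : ℂ) * E (t : ℂ) 0)) := by
    have hmem : Set.Ioo (-1 / (c : ℝ)) 0 ∈ 𝓝[<] (0 : ℝ) := Ioo_mem_nhdsLT (lc_neg_one_lt h)
    filter_upwards [hmem] with t ht
    have ht0 : (t : ℂ) ≠ 0 := by
      have := ht.2.ne
      exact_mod_cast this
    have e := lc_v h (t : ℂ) 0 (by rw [Complex.ofReal_re]; exact ht.1)
      (by rw [Complex.ofReal_re]; exact ht.2)
    have m1 := Pool.MP_d0f9e0_co.CS.mul_pp ((t : ℂ) / η)
    have m2 := Pool.MP_d0f9e0_co.CS.mul_pp (t : ℂ)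
    simp only [Int.cast_zero, zero_div, mul_zero, add_zero] at e
    have e1 : (1 : ℂ) - ee ((t : ℂ) / η) = -((t : ℂ) / η * pp ((t : ℂ) / η)) := by
      rw [m1]; ring
    have e2 : (1 : ℂ) - ee (t : ℂ) = -((t : ℂ) * pp (t : ℂ)) := by
      rw [m2]; ring
    rw [e1, e2] at e
    have e3 : (t : ℂ) * (pp ((t : ℂ) / η) * E ((t : ℂ) + (η - 1) / c) (0 + a - 1))
        = (t : ℂ) * ((η : ℂ) * (pp (t : ℂ) * E (t : ℂ) 0)) := by
      have e4 : -((t : ℂ) / η * pp ((t : ℂ) / η)) * E ((t : ℂ) + (η - 1) / c) (0 + a - 1) * (-η)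
          = -((t : ℂ) * pp (t : ℂ)) * E (t : ℂ) 0 * (-η) := by rw [e]
      have e5 : -((t : ℂ) / η * pp ((t : ℂ) / η)) * E ((t : ℂ) + (η - 1) / c) (0 + a - 1) * (-η)
          = (t : ℂ) * (pp ((t : ℂ) / η) * E ((t : ℂ) + (η - 1) / c) (0 + a - 1)) := by
        field_simp
      rw [e5] at e4
      rw [e4]
      ring
    exact mul_left_cancel₀ ht0 e3
  rw [zero_add] at heq
  have t7 := t5.congr' heq
  have := tendsto_nhds_unique t7 t6
  have hpi : (2 * Real.pi * Complex.I : ℂ) ≠ 0 := by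
    have := Real.pi_ne_zero
    simp [this, Complex.I_ne_zero]
  have e8 : (2 * Real.pi * Complex.I : ℂ) * E ((η - 1) / c) (a - 1)
      = (2 * Real.pi * Complex.I : ℂ) * (η * E 0 0) := by
    rw [this]
    ring
  exact mul_left_cancel₀ hpi e8

/-- on the line `x₂ = 0` -/
theorem lc_line (m : ℤ) :
    (1 - ee (m / c)) * E ((η - 1) / c) (m + a - 1) = (1 - ee (d * m / c)) * E 0 m := by
  have hη := lc_eta0 h
  obtain ⟨t1, t2⟩ := lc_tendsto h m
  have hee : Continuous ee := Pool.MP_d0f9e0_co.CS.ee_differentiable.continuous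
  have t3 : Tendsto (fun t : ℝ => 1 - ee ((t : ℂ) / η + m / c)) (𝓝[<] 0) (𝓝 (1 - ee (m / c))) := by
    have hcont : Continuous (fun t : ℝ => 1 - ee ((t : ℂ) / η + m / c)) :=
      continuous_const.sub (hee.comp ((Complex.continuous_ofReal.div_const _).add continuous_const))
    have := (hcont.tendsto 0).mono_left (nhdsWithin_le_nhds (s := Set.Iio (0 : ℝ)))
    simpa using this
  have t4 : Tendsto (fun t : ℝ => 1 - ee ((t : ℂ) + d * m / c)) (𝓝[<] 0)
      (𝓝 (1 - ee (d * m / c))) := by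
    have hcont : Continuous (fun t : ℝ => 1 - ee ((t : ℂ) + d * m / c)) :=
      continuous_const.sub (hee.comp (Complex.continuous_ofReal.add continuous_const))
    have := (hcont.tendsto 0).mono_left (nhdsWithin_le_nhds (s := Set.Iio (0 : ℝ)))
    simpa using this
  have t5 := t3.mul t1
  have t6 := t4.mul t2
  have heq : (fun t : ℝ => (1 - ee ((t : ℂ) / η + m / c)) *
      E ((t : ℂ) + (η - 1) / c) (m + a - 1)) =ᶠ[𝓝[<] 0]
      (fun t : ℝ => (1 - ee ((t : ℂ) + d * m / c)) * E (t : ℂ) m) := by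
    have hmem : Set.Ioo (-1 / (c : ℝ)) 0 ∈ 𝓝[<] (0 : ℝ) := Ioo_mem_nhdsLT (lc_neg_one_lt h)
    filter_upwards [hmem] with t ht
    exact lc_v h (t : ℂ) m (by rw [Complex.ofReal_re]; exact ht.1)
      (by rw [Complex.ofReal_re]; exact ht.2)
  exact tendsto_nhds_unique (t5.congr' heq) t6

theorem lc_per (z : ℂ) (m k : ℤ) : E z (m + c * k) = E z m := by
  have hper : Function.Periodic (fun m => E z m) (c : ℤ) := fun m => h.per z m
  have h1 : E z (m + k * c) = E z m := hper.int_mul k m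
  rw [← h1, mul_comm (c : ℤ) k]

end

end Pool.Agent.MP_d0f9e0_co.AN45
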