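import Pool.Agent.Lib.MP_d0f9e0_co.AN45.Val
import Pool.Agent.Lib.MP_d0f9e0_co.AN45.LCv
import Pool.Agent.Lib.MP_d0f9e0_co.GH.Grp

/-!
# (S5): from THEOREM S to (A2) in one basis, on representatives
-/

set_option autoImplicit false

namespace Pool.Agent.MP_d0f9e0_co.AN45

open Pool.MP_d0f9e0_co.SH Pool.MP_d0f9e0_co.GH Set
open Pool.Agent.Lib.MP_d0f9e0_co
open Pool.MP_d0f9e0_co.CS (ee)

/-- integral points -/
def IsZ (x : V) : Prop := ∃ i j : ℤ, x = ((i : ℚ), (j : ℚ))

/-- `W` is the function `E` on the torsion points, extended `ℤ²`-periodically from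
`0 ≤ x₂ < 1`. -/
structure WD (a b d : ℤ) (C : ℕ) (η : ℝ) (E : ℂ → ℤ → ℂ) (W : V → ℂ) : Prop where
  per : ∀ x, Tor a b C d x → ∀ i j : ℤ, W (x + ((i : ℚ), (j : ℚ))) = W x
  val : ∀ (x : V) (N m : ℤ), mq a C x = m → Nq b d x = N → 0 ≤ x.2 → x.2 < 1 →
    E (zt C η x : ℝ) m = W x

/-- the statement of THEOREM S -/
def ThmS (C : ℕ) (a d : ℤ) (η : ℝ) (E : ℂ → ℤ → ℂ) : Prop :=
  ∀ Np mp Ny my : ℤ, 0 < C * Np - (d - 1) * mp → C * Np - (d - 1) * mp < a + d - 2 →
    0 ≤ C * Ny - (d - 1) * my →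
    (C * Np - (d - 1) * mp) + (C * Ny - (d - 1) * my) < a + d - 2 →
    ∀ zp zy : ℝ, zp = ((C * Np - (d - 1) * mp : ℤ) : ℝ) / (a + d - 2) * ((η - 1) / C) →
      zy = ((C * Ny - (d - 1) * my : ℤ) : ℝ) / (a + d - 2) * ((η - 1) / C) →
    ∑ m ∈ Finset.range C, ∑ N ∈ Finset.Ioc ((d - 1) * m / C) ((a + d - 2 + (d - 1) * m) / C),
      E (((((C * N - (d - 1) * m : ℤ) : ℝ) / (a + d - 2) * ((η - 1) / C) : ℝ)) : ℂ) m *
      AN.Rinv E η C d ((((((C * N - (d - 1) * m : ℤ) : ℝ) / (a + d - 2) * ((η - 1) / C) : ℝ)) : ℂ)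
        - zp) (m - mp) *
      AN.psi η C d (((((C * N - (d - 1) * m : ℤ) : ℝ) / (a + d - 2) * ((η - 1) / C) : ℝ)) : ℂ)
        m zy my
    = ((η : ℂ) - 1) / η * (E zp mp * E zy my * AN.psi η C d zp mp zy my /
        (E 0 0 * E (zy + zp) (my + mp))) +
      (if C * Ny - (d - 1) * my = 0 ∧ (C : ℤ) ∣ my then ((η : ℂ) - 1) ^ 2 / η else 0)

section
variable {a b d : ℤ} {C : ℕ} {θ η : ℝ} (h : Mat a b (C : ℤ) d θ η)

theorem zt_ptNm (N m : ℤ) :
    zt C η (ptNm a b C d N m) = ((C * N - (d - 1) * m : ℤ) : ℝ) / (a + d - 2) * ((η - 1) / C) := by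
  unfold zt ptNm
  push_cast
  ring

include h

theorem Mat.irrTheta (hη : Irrational η) : Irrational θ := by
  rintro ⟨q, hq⟩
  apply hη
  refine ⟨C * q + d, ?_⟩
  have := h.eta
  rw [this, ← hq]
  push_cast
  ring

theorem Mat.ee_ne (hη : Irrational η) {x : V} (hx : x.2 ≠ 0) : ee (ell θ x : ℝ) ≠ 1 := by
  intro h1
  obtain ⟨k, hk⟩ := Pool.MP_d0f9e0_co.CS.ee_eq_one h1
  have h2 : ell θ x = k := by exact_mod_cast hk
  apply h.irrTheta hη
  refine ⟨(k - x.1) / x.2, ?_⟩
  unfold ell at h2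
  have h3 : (x.2 : ℝ) ≠ 0 := by exact_mod_cast hx
  push_cast
  rw [div_eq_iff h3]
  linarith

theorem Mat.Xt_C (x : V) {m : ℤ} (hm : mq a C x = m) :
    ((zt C η x : ℝ) : ℂ) / η + m / C = (ell θ x : ℝ) := by
  have e := h.Xt x
  rw [hm] at e
  rw [← e]
  push_cast
  ring

theorem Mat.X_C (x : V) {N m : ℤ} (hm : mq a C x = m) (hN : Nq b d x = N) :
    ((zt C η x : ℝ) : ℂ) + d * m / C = (ell θ x : ℝ) + N := by
  have e := h.X x
  rw [hm, hN] at e
  have e2 := congrArg (fun t : ℝ => (t : ℂ)) e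
  push_cast at e2
  exact e2

variable {E : ℂ → ℤ → ℂ} (hE : AN.LC C a d η E) {W : V → ℂ} (hW : WD a b d C η E W)

omit h in
include hW in
theorem W_zero : W 0 = E 0 0 := by
  have := hW.val 0 0 0 (by simp [mq]) (by simp [Nq]) (by simp) (by simp)
  rw [← this]
  simp [zt]

include hE hW

theorem Mat.W_ne {x : V} (hx : Tor a b C d x) : W x ≠ 0 := by
  have hc := lc_cpos hE
  have hη := h.one_lt
  -- translate into `0 ≤ x₂ < 1`
  have hx2 := hx
  obtain ⟨N, m, hN, hm⟩ := hx.shift 0 (-⌊x.2⌋)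
  have e := hW.per x hx2 0 (-⌊x.2⌋)
  set y : V := x + (((0 : ℤ) : ℚ), ((-⌊x.2⌋ : ℤ) : ℚ)) with hy
  have y2 : y.2 = Int.fract x.2 := by
    rw [hy]
    simp only [Prod.snd_add]
    push_cast
    have := Int.floor_add_fract x.2
    linarith
  have y0 : 0 ≤ y.2 := by rw [y2]; exact Int.fract_nonneg _
  have y1 : y.2 < 1 := by rw [y2]; exact Int.fract_lt_one _
  rw [← e, ← hW.val y N m hm hN y0 y1]
  have y0' : (0 : ℝ) ≤ y.2 := by exact_mod_cast y0
  have y1' : (y.2 : ℝ) < 1 := by exact_mod_cast y1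
  have hpos : 0 < (η - 1) / C := div_pos (by linarith) hc
  refine hE.ne _ _ ?_ ?_
  · rw [Complex.ofReal_re]
    have h1 := lc_neg_one_lt hE
    have : 0 ≤ zt C η y := mul_nonneg y0' hpos.le
    exact lt_of_lt_of_le h1 this
  · rw [Complex.ofReal_re]
    have h2 : zt C η y ≤ (η - 1) / C := by
      unfold zt
      push_cast
      have := mul_le_mul_of_nonneg_right y1'.le hpos.le
      linarith
    have h3 : (η - 1) / C < η / C := div_lt_div_of_pos_right (by linarith) hc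
    exact lt_of_le_of_lt h2 h3

open Classical in
/-- numerators -/
theorem Mat.num_val {x : V} {N m : ℤ} (hm : mq a C x = m) (hN : Nq b d x = N) (h0 : 0 < x.2)
    (h1 : x.2 ≤ 1) : E (zt C η x : ℝ) m = if IsZ x then η * W 0 else W x := by
  rcases lt_or_eq_of_le h1 with h2 | h2
  · rw [if_neg, hW.val x N m hm hN h0.le h2]
    rintro ⟨i, j, rfl⟩
    change (0 : ℚ) < (j : ℚ) at h0
    change (j : ℚ) < 1 at h2
    have a1 : (0 : ℤ) < j := by exact_mod_cast h0
    have a2 : j < (1 : ℤ) := by exact_mod_cast h2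
    omega
  · have hz : ((zt C η x : ℝ) : ℂ) = (η - 1) / C := by
      unfold zt
      rw [h2]
      push_cast
      ring
    rw [hz]
    by_cases hx : IsZ x
    · rw [if_pos hx]
      obtain ⟨i, j, rfl⟩ := hx
      change (j : ℚ) = 1 at h2
      have hj : j = 1 := by exact_mod_cast h2
      have hmm : m = (a - 1) + C * i := by
        unfold mq at hm
        simp only at hm
        rw [hj] at hm
        have : ((m : ℤ) : ℚ) = ((a - 1 + C * i : ℤ) : ℚ) := by
          rw [← hm]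
          push_cast
          ring
        exact_mod_cast this
      rw [hmm, lc_per hE, lc_at_v hE, W_zero hW]
    · rw [if_neg hx]
      -- the point below
      have hT : Tor a b C d x := ⟨N, m, hN, hm⟩
      have hm' : mq a C (x + (((0 : ℤ) : ℚ), ((-1 : ℤ) : ℚ))) = ((m - (a - 1) : ℤ) : ℚ) := by
        rw [mq_shift, hm]
        push_cast
        ring
      have hN' : Nq b d (x + (((0 : ℤ) : ℚ), ((-1 : ℤ) : ℚ))) = ((N - b : ℤ) : ℚ) := by
        rw [Nq_shift, hN]
        push_cast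
        ring
      have e := hW.per x hT 0 (-1)
      set y : V := x + (((0 : ℤ) : ℚ), ((-1 : ℤ) : ℚ)) with hy
      have y2 : y.2 = 0 := by
        rw [hy]
        simp only [Prod.snd_add]
        rw [h2]
        push_cast
        ring
      have e1 := hW.val y (N - b) (m - (a - 1)) hm' hN' (by rw [y2]) (by rw [y2]; exact one_pos)
      have hz0 : ((zt C η y : ℝ) : ℂ) = 0 := by
        unfold zt
        rw [y2]
        push_cast
        ring
      rw [hz0] at e1
      have line := lc_line hE (m - (a - 1))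
      have hk : m - (a - 1) + a - 1 = m := by ring
      rw [hk] at line
      -- `d m'/C = m'/C + N'`
      have hXt := h.Xt_C y hm'
      have hX := h.X_C y hm' hN'
      rw [hz0] at hXt hX
      rw [zero_div, zero_add] at hXt
      rw [zero_add] at hX
      rw [hX, Pool.MP_d0f9e0_co.CS.ee_add_int, hXt] at line
      have hne : (1 : ℂ) - ee (ell θ y : ℝ) ≠ 0 := by
        rw [sub_ne_zero]
        intro h5
        obtain ⟨k, hk⟩ := Pool.MP_d0f9e0_co.CS.ee_eq_one h5.symm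
        have h6 : ell θ y = k := by exact_mod_cast hk
        unfold ell at h6
        rw [y2] at h6
        push_cast at h6
        rw [zero_mul, add_zero] at h6
        have h7 : y.1 = k := by exact_mod_cast h6
        apply hx
        refine ⟨k, 1, ?_⟩
        refine Prod.ext ?_ ?_
        · have : y.1 = x.1 := by
            rw [hy]
            simp
          rw [← this, h7]
        · rw [h2]
          push_cast
          rfl
      rw [mul_left_cancel₀ hne line, e1, e]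

/-- denominators -/
theorem Mat.den_val {x : V} {N m : ℤ} (hm : mq a C x = m) (hN : Nq b d x = N) (h0 : -1 < x.2)
    (h1 : x.2 < 1) : AN.Rinv E η C d (zt C η x : ℝ) m = 1 / W x := by
  have hc := lc_cpos hE
  have hη := h.one_lt
  have hpos : 0 < (η - 1) / C := div_pos (by linarith) hc
  unfold AN.Rinv
  rw [Complex.ofReal_re]
  by_cases h2 : 0 ≤ x.2
  · have h3 : 0 ≤ zt C η x := by
      unfold zt
      have : (0 : ℝ) ≤ x.2 := by exact_mod_cast h2
      exact mul_nonneg this hpos.le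
    rw [if_pos h3, hW.val x N m hm hN h2 h1]
  · push Not at h2
    have h2' : (x.2 : ℝ) < 0 := by exact_mod_cast h2
    have h0' : (-1 : ℝ) < x.2 := by exact_mod_cast h0
    have h3 : zt C η x < 0 := by
      unfold zt
      exact mul_neg_of_neg_of_pos h2' hpos
    rw [if_neg (not_le.2 h3)]
    have hT : Tor a b C d x := ⟨N, m, hN, hm⟩
    have hm' : mq a C (x + (((0 : ℤ) : ℚ), ((1 : ℤ) : ℚ))) = ((m + (a - 1) : ℤ) : ℚ) := by
      rw [mq_shift, hm]
      push_cast
      ring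
    have hN' : Nq b d (x + (((0 : ℤ) : ℚ), ((1 : ℤ) : ℚ))) = ((N + b : ℤ) : ℚ) := by
      rw [Nq_shift, hN]
      push_cast
      ring
    have e := hW.per x hT 0 1
    have ez := zt_shift (c := (C : ℤ)) (η := η) x 0 1
    set y : V := x + (((0 : ℤ) : ℚ), ((1 : ℤ) : ℚ)) with hy
    have y2 : y.2 = x.2 + 1 := by
      rw [hy]
      simp only [Prod.snd_add]
      push_cast
      ring
    have e1 := hW.val y (N + b) (m + (a - 1)) hm' hN' (by rw [y2]; linarith)
      (by rw [y2]; linarith)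
    have hzy : ((zt C η y : ℝ) : ℂ) = (zt C η x : ℝ) + (η - 1) / C := by
      rw [ez]
      push_cast
      ring
    have hs := lc_s1v hE (zt C η x : ℝ) m (by
      rw [Complex.ofReal_re]
      have h5 : -((η - 1) / C) < zt C η x := by
        unfold zt
        have := mul_lt_mul_of_pos_right h0' hpos
        push_cast at this ⊢
        linarith
      have h6 : -η / (C : ℝ) = -((η - 1) / C) - 1 / C := by ring
      have h7 : 0 < 1 / (C : ℝ) := by positivity
      rw [h6]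
      linarith) (by rw [Complex.ofReal_re]; exact h3)
    have hk : m + (a - 1) = m + a - 1 := by ring
    rw [hk] at e1
    rw [hs, ← hzy, e1, e, h.X_C x hm hN, Pool.MP_d0f9e0_co.CS.ee_add_int, h.Xt_C x hm]
    have hne : (1 : ℂ) - ee (ell θ x : ℝ) ≠ 0 := by
      rw [sub_ne_zero]
      exact (h.ee_ne hE.irr h2.ne).symm
    have hWx := h.W_ne hE hW hT
    field_simp

omit hE hW in
/-- the kernel -/
theorem Mat.psi_val {x y : V} {N m N' m' : ℤ} (hm : mq a C x = m) (hN : Nq b d x = N)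
    (hm' : mq a C y = m') (hN' : Nq b d y = N') :
    AN.psi η C d (zt C η x : ℝ) m (zt C η y : ℝ) m' = ee (((N * y.2 - m * y.1 : ℚ) : ℝ) : ℂ) := by
  have e := h.kernel x y
  rw [hm, hN, hm', hN'] at e
  unfold AN.psi
  have e2 := congrArg (fun t : ℝ => (t : ℂ)) e
  push_cast at e2
  have e3 : (C : ℂ) * ((zt C η x : ℝ) : ℂ) * ((zt C η y : ℝ) : ℂ) / η - d * m * m' / C
      = (((N * y.2 - m * y.1 : ℚ) : ℝ) : ℂ) + ((-(m * N') : ℤ) : ℂ) := by
    push_cast
    rw [e2]
    ring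
  rw [e3, Pool.MP_d0f9e0_co.CS.ee_add_int]

end

section
variable {a b d : ℤ} {C : ℕ} {θ η : ℝ} (h : Mat a b (C : ℤ) d θ η)

theorem mq_add (x y : V) : mq a C (x + y) = mq a C x + mq a C y := by
  unfold mq
  simp only [Prod.fst_add, Prod.snd_add]
  ring

theorem Nq_add (x y : V) : Nq b d (x + y) = Nq b d x + Nq b d y := by
  unfold Nq
  simp only [Prod.fst_add, Prod.snd_add]
  ring

theorem mq_sub (x y : V) : mq a C (x - y) = mq a C x - mq a C y := by
  unfold mq
  simp only [Prod.fst_sub, Prod.snd_sub]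
  ring

theorem Nq_sub (x y : V) : Nq b d (x - y) = Nq b d x - Nq b d y := by
  unfold Nq
  simp only [Prod.fst_sub, Prod.snd_sub]
  ring

theorem zt_add (x y : V) : zt C η (x + y) = zt C η x + zt C η y := by
  unfold zt
  simp only [Prod.snd_add]
  push_cast
  ring

theorem zt_sub (x y : V) : zt C η (x - y) = zt C η x - zt C η y := by
  unfold zt
  simp only [Prod.snd_sub]
  push_cast
  ring

theorem snd_ptNm (N m : ℤ) :
    (ptNm a b C d N m).2 = ((C * N - (d - 1) * m : ℤ) : ℚ) / ((a + d - 2 : ℤ) : ℚ) := by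
  unfold ptNm
  push_cast
  rfl

open Classical in
/-- the numerator function: `η W(0)` over `0` -/
noncomputable def Wn (η : ℝ) (W : V → ℂ) (x : V) : ℂ := if IsZ x then η * W 0 else W x

include h in
theorem Mat.snd_pos_iff (N m : ℤ) : 0 < (ptNm a b C d N m).2 ↔ 0 < C * N - (d - 1) * m := by
  have hn := h.npos
  rw [snd_ptNm]
  have hn' : (0 : ℚ) < ((a + d - 2 : ℤ) : ℚ) := by exact_mod_cast hn
  rw [div_pos_iff_of_pos_right hn']
  exact_mod_cast Iff.rfl

include h in
theorem Mat.snd_nonneg_iff (N m : ℤ) : 0 ≤ (ptNm a b C d N m).2 ↔ 0 ≤ C * N - (d - 1) * m := by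
  have hn := h.npos
  rw [snd_ptNm]
  have hn' : (0 : ℚ) < ((a + d - 2 : ℤ) : ℚ) := by exact_mod_cast hn
  rw [le_div_iff₀ hn', zero_mul]
  exact_mod_cast Iff.rfl

include h in
theorem Mat.snd_lt_iff (N m k : ℤ) :
    (ptNm a b C d N m).2 < ((k : ℤ) : ℚ) ↔ C * N - (d - 1) * m < k * (a + d - 2) := by
  have hn := h.npos
  rw [snd_ptNm]
  have hn' : (0 : ℚ) < ((a + d - 2 : ℤ) : ℚ) := by exact_mod_cast hn
  rw [div_lt_iff₀ hn']
  exact_mod_cast Iff.rfl

include h in
theorem Mat.snd_le_one_iff (N m : ℤ) :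
    (ptNm a b C d N m).2 ≤ 1 ↔ C * N - (d - 1) * m ≤ a + d - 2 := by
  have hn := h.npos
  rw [snd_ptNm]
  have hn' : (0 : ℚ) < ((a + d - 2 : ℤ) : ℚ) := by exact_mod_cast hn
  rw [div_le_one hn']
  exact_mod_cast Iff.rfl

include h in
theorem Mat.mem_Ioc_iff (N m : ℤ) :
    N ∈ Finset.Ioc ((d - 1) * m / C) ((a + d - 2 + (d - 1) * m) / C) ↔
      0 < (ptNm a b C d N m).2 ∧ (ptNm a b C d N m).2 ≤ 1 := by
  have hc := h.cpos
  rw [Finset.mem_Ioc, h.snd_pos_iff, h.snd_le_one_iff, Int.ediv_lt_iff_lt_mul hc,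
    Int.le_ediv_iff_mul_le hc]
  constructor
  · rintro ⟨h1, h2⟩
    constructor <;> linarith
  · rintro ⟨h1, h2⟩
    constructor <;> linarith

include h in
open Classical in
/-- **(A2) in one basis, on representatives.** -/
theorem Mat.A2rep {E : ℂ → ℤ → ℂ} (hE : AN.LC C a d η E) {W : V → ℂ} (hW : WD a b d C η E W)
    (hS : ThmS C a d η E) {p y : V} (hp : Tor a b C d p) (hy : Tor a b C d y) (p0 : 0 < p.2)
    (y0 : 0 ≤ y.2) (py : p.2 + y.2 < 1) :
    ∑ m ∈ Finset.range C, ∑ N ∈ Finset.Ioc ((d - 1) * m / C) ((a + d - 2 + (d - 1) * m) / C),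
      Wn η W (ptNm a b C d N m) / W (ptNm a b C d N m - p) *
        ee ((((N : ℚ) * y.2 - ((m : ℕ) : ℤ) * y.1 : ℚ) : ℝ) : ℂ)
    = ((η : ℂ) - 1) / η * (W p * W y *
        ee (((Nq b d p * y.2 - mq a C p * y.1 : ℚ) : ℝ) : ℂ) / (W 0 * W (y + p))) +
      (if IsZ y then ((η : ℂ) - 1) ^ 2 / η else 0) := by
  have hn := h.npos
  have p1 : p.2 < 1 := by linarith
  obtain ⟨Np, mp, hNp, hmp⟩ := hp
  obtain ⟨Ny, my, hNy, hmy⟩ := hy
  have ep := h.eq_ptNm p hmp hNp
  have ey := h.eq_ptNm y hmy hNy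
  have zpe : zt C η p = ((C * Np - (d - 1) * mp : ℤ) : ℝ) / (a + d - 2) * ((η - 1) / C) := by
    rw [ep, zt_ptNm]
  have zye : zt C η y = ((C * Ny - (d - 1) * my : ℤ) : ℝ) / (a + d - 2) * ((η - 1) / C) := by
    rw [ey, zt_ptNm]
  have c1 : 0 < C * Np - (d - 1) * mp := by rw [← h.snd_pos_iff, ← ep]; exact p0
  have c2 : C * Np - (d - 1) * mp < a + d - 2 := by
    have := (h.snd_lt_iff Np mp 1).1 (by rw [← ep]; push_cast; exact p1)
    linarith
  have c3 : 0 ≤ C * Ny - (d - 1) * my := by rw [← h.snd_nonneg_iff, ← ey]; exact y0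
  have c4 : (C * Np - (d - 1) * mp) + (C * Ny - (d - 1) * my) < a + d - 2 := by
    have e1 : p.2 * ((a + d - 2 : ℤ) : ℚ) = ((C * Np - (d - 1) * mp : ℤ) : ℚ) := by
      rw [ep, snd_ptNm]
      have : (((a + d - 2 : ℤ)) : ℚ) ≠ 0 := by exact_mod_cast hn.ne'
      field_simp
    have e2 : y.2 * ((a + d - 2 : ℤ) : ℚ) = ((C * Ny - (d - 1) * my : ℤ) : ℚ) := by
      rw [ey, snd_ptNm]
      have : (((a + d - 2 : ℤ)) : ℚ) ≠ 0 := by exact_mod_cast hn.ne'
      field_simp
    have hn' : (0 : ℚ) < ((a + d - 2 : ℤ) : ℚ) := by exact_mod_cast hn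
    have e3 : (p.2 + y.2) * ((a + d - 2 : ℤ) : ℚ) < 1 * ((a + d - 2 : ℤ) : ℚ) :=
      mul_lt_mul_of_pos_right py hn'
    rw [add_mul, e1, e2, one_mul] at e3
    exact_mod_cast e3
  have key := hS Np mp Ny my c1 c2 c3 c4 (zt C η p) (zt C η y) zpe zye
  have hpW := hW.val p Np mp hmp hNp p0.le p1
  have hyW := hW.val y Ny my hmy hNy y0 (by linarith)
  have hypW : E (((zt C η y : ℝ) : ℂ) + (zt C η p : ℝ)) (my + mp) = W (y + p) := by
    have e1 : ((zt C η y : ℝ) : ℂ) + (zt C η p : ℝ) = (zt C η (y + p) : ℝ) := by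
      rw [zt_add]
      push_cast
      ring
    rw [e1]
    refine hW.val (y + p) (Ny + Np) (my + mp) ?_ ?_ ?_ ?_
    · rw [mq_add, hmy, hmp]
      push_cast
      ring
    · rw [Nq_add, hNy, hNp]
      push_cast
      ring
    · rw [Prod.snd_add]
      linarith
    · rw [Prod.snd_add]
      linarith
  have hbd : (C * Ny - (d - 1) * my = 0 ∧ (C : ℤ) ∣ my) ↔ IsZ y := by
    have y2 : y.2 = ((C * Ny - (d - 1) * my : ℤ) : ℚ) / ((a + d - 2 : ℤ) : ℚ) := by
      rw [ey, snd_ptNm]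
    have hcQ : (C : ℚ) ≠ 0 := by
      have := h.cpos
      exact_mod_cast this.ne'
    constructor
    · rintro ⟨h1, k, hk⟩
      rw [h1] at y2
      have y2' : y.2 = 0 := by rw [y2]; simp
      refine ⟨k, 0, ?_⟩
      refine Prod.ext ?_ ?_
      · have h2 := hmy
        unfold mq at h2
        rw [y2', mul_zero, add_zero, hk] at h2
        push_cast at h2
        exact mul_left_cancel₀ hcQ h2
      · rw [y2']
        push_cast
        rfl
    · rintro ⟨i, j, hij⟩
      have hy2 : y.2 = j := by rw [hij]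
      have hj : j = 0 := by
        have a1 : (0 : ℚ) ≤ j := by rw [← hy2]; exact y0
        have a2 : (j : ℚ) < 1 := by rw [← hy2]; linarith
        have a1' : (0 : ℤ) ≤ j := by exact_mod_cast a1
        have a2' : j < (1 : ℤ) := by exact_mod_cast a2
        omega
      have y2' : y.2 = 0 := by rw [hy2, hj]; simp
      constructor
      · rw [y2'] at y2
        have hn' : ((a + d - 2 : ℤ) : ℚ) ≠ 0 := by exact_mod_cast hn.ne'
        have := (div_eq_zero_iff.1 y2.symm).resolve_right hn'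
        exact_mod_cast this
      · refine ⟨i, ?_⟩
        have h2 := hmy
        unfold mq at h2
        have hy1 : y.1 = i := by rw [hij]
        rw [y2', mul_zero, add_zero, hy1] at h2
        have : (my : ℚ) = ((C * i : ℤ) : ℚ) := by rw [← h2]; push_cast; ring
        exact_mod_cast this
  rw [hpW, hyW, hypW, h.psi_val hmp hNp hmy hNy, ← W_zero hW] at key
  rw [hNp, hmp]
  have hif : (if C * Ny - (d - 1) * my = 0 ∧ (C : ℤ) ∣ my then ((η : ℂ) - 1) ^ 2 / η else 0)
      = (if IsZ y then ((η : ℂ) - 1) ^ 2 / η else 0) := by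
    by_cases h5 : IsZ y
    · rw [if_pos h5, if_pos (hbd.2 h5)]
    · rw [if_neg h5, if_neg (fun h6 => h5 (hbd.1 h6))]
  rw [hif] at key
  rw [← key]
  refine Finset.sum_congr rfl fun m hm => Finset.sum_congr rfl fun N hN => ?_
  rw [h.mem_Ioc_iff] at hN
  obtain ⟨g1, g2⟩ := hN
  rw [← zt_ptNm (a := a) (b := b) (d := d) (C := C) (η := η) N m]
  set x : V := ptNm a b C d N m with hx
  have hmx : mq a C x = ((m : ℤ) : ℚ) := h.mq_ptNm N m
  have hNx : Nq b d x = (N : ℚ) := h.Nq_ptNm N m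
  rw [h.num_val hE hW hmx hNx g1 g2, h.psi_val hmx hNx hmy hNy]
  have e2 : ((zt C η x : ℝ) : ℂ) - (zt C η p : ℝ) = (zt C η (x - p) : ℝ) := by
    rw [zt_sub]
    push_cast
    ring
  have hmd : mq a C (x - p) = (((m : ℤ) - mp : ℤ) : ℚ) := by
    rw [mq_sub, hmx, hmp]
    push_cast
    ring
  have hNd : Nq b d (x - p) = ((N - Np : ℤ) : ℚ) := by
    rw [Nq_sub, hNx, hNp]
    push_cast
    ring
  rw [e2, h.den_val hE hW hmd hNd (by rw [Prod.snd_sub]; linarith)
    (by rw [Prod.snd_sub]; linarith)]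
  unfold Wn
  push_cast
  ring

end

end Pool.Agent.MP_d0f9e0_co.AN45
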