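import Pool.Agent.Lib.MP_d0f9e0_co.AN45.A2

/-!
# (S5): from representatives to the group `Fx A ℤ²`
-/

set_option autoImplicit false

namespace Pool.Agent.MP_d0f9e0_co.AN45

open Pool.MP_d0f9e0_co.SH Pool.MP_d0f9e0_co.GH Set
open Pool.Agent.Lib.MP_d0f9e0_co
open Pool.MP_d0f9e0_co.CS (ee)

theorem latZ : Lat Zl 1 ((1 : ℚ), (0 : ℚ)) ((0 : ℚ), (1 : ℚ)) where
  eq := rfl
  det_eq := by simp [det]
  pos := one_pos

theorem mem_Zl (p : V) : p ∈ Zl ↔ IsZ p := by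
  rw [latZ.mem_iff]
  have e1 : det p ((0 : ℚ), (1 : ℚ)) = p.1 := by simp [det]
  have e2 : det ((1 : ℚ), (0 : ℚ)) p = p.2 := by simp [det]
  rw [e1, e2]
  constructor
  · rintro ⟨⟨i, hi⟩, ⟨j, hj⟩⟩
    exact ⟨i, j, Prod.ext (by rw [hi, mul_one]) (by rw [hj, mul_one])⟩
  · rintro ⟨i, j, rfl⟩
    exact ⟨⟨i, by simp⟩, ⟨j, by simp⟩⟩

/-- `A` has the matrix `(a,b,c,d)`: `A (1,0) = (d,c)`, `A (0,1) = (b,a)` -/
structure IsMat (A : V ≃+ V) (a b c d : ℤ) : Prop where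
  e1 : A ((1 : ℚ), (0 : ℚ)) = ((d : ℚ), (c : ℚ))
  e2 : A ((0 : ℚ), (1 : ℚ)) = ((b : ℚ), (a : ℚ))

section
variable {a b c d : ℤ} {θ η : ℝ} {A : V ≃+ V} (hA : IsMat A a b c d)
include hA

theorem IsMat.apply (x : V) : A x = (d * x.1 + b * x.2, c * x.1 + a * x.2) := by
  have hx : x = x.1 • ((1 : ℚ), (0 : ℚ)) + x.2 • ((0 : ℚ), (1 : ℚ)) := by
    ext <;> simp
  conv_lhs => rw [hx]
  rw [map_add, map_smul_rat, map_smul_rat, hA.e1, hA.e2]
  ext
  · simp only [Prod.smul_fst, Prod.fst_add, smul_eq_mul]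
    ring
  · simp only [Prod.smul_snd, Prod.snd_add, smul_eq_mul]
    ring

theorem IsMat.sub (x : V) : A x - x = (Nq b d x, mq a c x) := by
  rw [hA.apply]
  ext
  · simp only [Prod.fst_sub, Nq]
    ring
  · simp only [Prod.snd_sub, mq]
    ring

theorem IsMat.sub_mem_iff (x : V) : A x - x ∈ Zl ↔ Tor a b c d x := by
  rw [hA.sub, mem_Zl]
  constructor
  · rintro ⟨i, j, h⟩
    rw [Prod.mk.injEq] at h
    exact ⟨i, j, h.1, h.2⟩
  · rintro ⟨i, j, h1, h2⟩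
    exact ⟨i, j, by rw [h1, h2]⟩

theorem IsMat.hyp (h : Mat a b c d θ η) : Hyp θ A η where
  det_eq := by
    intro p q
    have h3 := h.detQ
    rw [hA.apply, hA.apply]
    simp only [det]
    linear_combination (p.1 * q.2 - p.2 * q.1) * h3
  ell_eq := by
    intro p
    have h1 := h.eta
    have h2 := h.fix
    rw [hA.apply]
    unfold ell
    push_cast
    linear_combination (-(p.1 : ℝ)) * h1 - (p.2 : ℝ) * h2
  pos := h.etapos

theorem IsMat.stb (h : Mat a b c d θ η) : Stb A Zl := by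
  have h3 := h.detQ
  have hdet := h.det
  intro p
  rw [mem_Zl, mem_Zl, hA.apply]
  constructor
  · rintro ⟨i, j, hij⟩
    rw [Prod.mk.injEq] at hij
    refine ⟨a * i - b * j, d * j - c * i, ?_⟩
    refine Prod.ext ?_ ?_
    · show p.1 = ((a * i - b * j : ℤ) : ℚ)
      push_cast
      rw [← hij.1, ← hij.2]
      linear_combination (-p.1) * h3
    · show p.2 = ((d * j - c * i : ℤ) : ℚ)
      push_cast
      rw [← hij.1, ← hij.2]
      linear_combination (-p.2) * h3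
  · rintro ⟨i, j, rfl⟩
    exact ⟨d * i + b * j, c * i + a * j, by push_cast; rfl⟩

theorem IsMat.mk_mem (h : Mat a b c d θ η) (x : V) :
    (QuotientAddGroup.mk x : V ⧸ Zl) ∈ Fx A Zl ↔ Tor a b c d x := by
  rw [mem_Fx (hA.stb h), hA.sub_mem_iff]

end

theorem mk_eq_iff (x y : V) :
    (QuotientAddGroup.mk x : V ⧸ Zl) = QuotientAddGroup.mk y ↔
      ∃ i j : ℤ, x = y + ((i : ℚ), (j : ℚ)) := by
  rw [QuotientAddGroup.eq, mem_Zl]
  constructor
  · rintro ⟨i, j, h⟩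
    refine ⟨-i, -j, ?_⟩
    have : x = y - (-x + y) := by abel
    rw [this, h]
    ext <;> simp <;> ring
  · rintro ⟨i, j, rfl⟩
    refine ⟨-i, -j, ?_⟩
    ext <;> simp

/-- the fibre is the coset of a representative -/
theorem fib_eq (x : V) : fib Zl (QuotientAddGroup.mk x : V ⧸ Zl) = coset x := by
  ext p
  show (QuotientAddGroup.mk p : V ⧸ Zl) = QuotientAddGroup.mk x ↔ _
  rw [mk_eq_iff]
  constructor
  · rintro ⟨i, j, rfl⟩
    exact ⟨i, j, rfl, rfl⟩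
  · rintro ⟨i, j, h1, h2⟩
    exact ⟨i, j, Prod.ext h1 h2⟩

section
variable {a b d : ℤ} {C : ℕ} {θ η : ℝ} {A : V ≃+ V}

/-- **The sum over the group of fixed points.** -/
theorem sum_G (h : Mat a b (C : ℤ) d θ η) (hA : IsMat A a b (C : ℤ) d) [Fintype ↥(Fx A Zl)]
    (Φ : V → ℂ) (hΦ : ∀ x, Tor a b C d x → ∀ i j : ℤ, Φ (x + ((i : ℚ), (j : ℚ))) = Φ x) :
    ∑ m ∈ Finset.range C, ∑ N ∈ Finset.Ioc ((d - 1) * m / C) ((a + d - 2 + (d - 1) * m) / C),
      Φ (ptNm a b C d N m)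
    = ∑ g : ↥(Fx A Zl), Φ ((g : V ⧸ Zl).out) := by
  classical
  rw [Finset.sum_sigma']
  have tor : ∀ N m : ℤ, Tor a b C d (ptNm a b C d N m) := fun N m =>
    ⟨N, m, h.Nq_ptNm N m, h.mq_ptNm N m⟩
  refine Finset.sum_bij (fun q _ => (⟨QuotientAddGroup.mk (ptNm a b C d q.2 q.1),
    (hA.mk_mem h _).2 (tor q.2 q.1)⟩ : ↥(Fx A Zl))) ?_ ?_ ?_ ?_
  · intro q _
    exact Finset.mem_univ _
  · rintro ⟨m, N⟩ hq ⟨m', N'⟩ hq' he
    rw [Finset.mem_sigma, Finset.mem_range, h.mem_Ioc_iff] at hq hq'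
    simp only at hq hq' he
    rw [Subtype.mk.injEq, mk_eq_iff] at he
    obtain ⟨i, j, hij⟩ := he
    obtain ⟨q0, _, huniq⟩ := h.existsUnique_rep (0 : ℝ) (tor N' m')
    have u1 := huniq (N', (m' : ℤ)) ⟨by simp, by simp only; exact_mod_cast hq'.1, by
      simp only; exact_mod_cast hq'.2.1, by simp only; rw [zero_add]; exact_mod_cast hq'.2.2,
      0, 0, by simp⟩
    have u2 := huniq (N, (m : ℤ)) ⟨by simp, by simp only; exact_mod_cast hq.1, by
      simp only; exact_mod_cast hq.2.1, by simp only; rw [zero_add]; exact_mod_cast hq.2.2,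
      i, j, hij⟩
    have u3 := u2.trans u1.symm
    rw [Prod.mk.injEq] at u3
    have e1 : m = m' := by exact_mod_cast u3.2
    subst e1
    rw [u3.1]
  · intro g _
    have hg : Tor a b C d ((g : V ⧸ Zl).out) := by
      rw [← hA.mk_mem h, QuotientAddGroup.out_eq']
      exact g.2
    obtain ⟨⟨N, m⟩, ⟨g1, g2, g3, g4, i, j, g5⟩, _⟩ := h.existsUnique_rep (0 : ℝ) hg
    simp only at g1 g2 g3 g4 g5
    obtain ⟨k, rfl⟩ := Int.eq_ofNat_of_zero_le g1
    refine ⟨⟨k, N⟩, ?_, ?_⟩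
    · rw [Finset.mem_sigma, Finset.mem_range, h.mem_Ioc_iff]
      refine ⟨by exact_mod_cast g2, by exact_mod_cast g3, ?_⟩
      rw [zero_add] at g4
      exact_mod_cast g4
    · apply Subtype.ext
      show (QuotientAddGroup.mk (ptNm a b C d N k) : V ⧸ Zl) = g
      rw [← QuotientAddGroup.out_eq' (g : V ⧸ Zl), mk_eq_iff]
      exact ⟨i, j, g5⟩
  · rintro ⟨m, N⟩ _
    simp only
    have e : (QuotientAddGroup.mk ((QuotientAddGroup.mk (ptNm a b C d N m) : V ⧸ Zl).out) : V ⧸ Zl)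
        = QuotientAddGroup.mk (ptNm a b C d N m) := QuotientAddGroup.out_eq' _
    rw [mk_eq_iff] at e
    obtain ⟨i, j, hij⟩ := e
    rw [hij, hΦ _ (tor N m)]

end

end Pool.Agent.MP_d0f9e0_co.AN45
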