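import Pool.Agent.Lib.MP_d0f9e0_co.AN45.Gsum
import Pool.Agent.Lib.MP_d0f9e0_co.AN.LCof
import Pool.Agent.Lib.MP_d0f9e0_co.AN.Sum
import Pool.Agent.Lib.MP_d0f9e0_co.PH.ZL96
import Pool.Agent.Lib.MP_d0f9e0_co.GH.NGof

/-!
# (S5): (A2) of `NG` for `Zl` in one basis, for good `(p, y)`
-/

set_option autoImplicit false

namespace Pool.Agent.MP_d0f9e0_co.AN45

open Pool.MP_d0f9e0_co.SH hiding Fx
open Pool.MP_d0f9e0_co.GH Set
open Pool.Agent.Lib.MP_d0f9e0_co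
open Pool.MP_d0f9e0_co.CS (ee)

/-- the function `E = ζ / c` on the plane -/
noncomputable def Wv (S : ℝ → ℝ → ℝ → ℝ) (θ : ℝ) (A : V ≃+ V) (x : V) : ℂ :=
  zL θ A Zl (QuotientAddGroup.mk x) / (cL S θ A Zl (QuotientAddGroup.mk x) : ℝ)

section
variable {a b d : ℤ} {C : ℕ} {θ η : ℝ} {A : V ≃+ V} {S : ℝ → ℝ → ℝ → ℝ} {s : ℂ → ℂ}

theorem adm_e (h : Mat a b (C : ℤ) d θ η) (hA : IsMat A a b (C : ℤ) d) :
    ((1 : ℚ), (0 : ℚ)) ∈ Zl ∧ 0 < ell θ ((1 : ℚ), (0 : ℚ)) ∧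
      0 < det ((1 : ℚ), (0 : ℚ)) (A ((1 : ℚ), (0 : ℚ))) := by
  refine ⟨?_, ?_, ?_⟩
  · rw [mem_Zl]
    exact ⟨1, 0, by simp⟩
  · simp [ell]
  · rw [hA.e1]
    have := h.cpos
    simp only [det]
    have h2 : (0 : ℚ) < ((C : ℤ) : ℚ) := by exact_mod_cast this
    linarith

theorem WD_Wv (h : Mat a b (C : ℤ) d θ η) (hA : IsMat A a b (C : ℤ) d) (hs : AN.SS η s)
    (hS : DS S) (hS1 : ∀ x : ℝ, 0 < x → x < 1 + η → S 1 η x * ‖s x‖ = 1) :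
    WD a b d C η (AN.EE s η C a) (Wv S θ A) where
  per := by
    intro x _ i j
    have : (QuotientAddGroup.mk (x + ((i : ℚ), (j : ℚ))) : V ⧸ Zl) = QuotientAddGroup.mk x :=
      (mk_eq_iff _ _).2 ⟨i, j, rfl⟩
    unfold Wv
    rw [this]
  val := by
    intro x N m hm hN h0 h1
    have hθ := h.irrTheta hs.irr
    have hyp := hA.hyp h
    have hstb := hA.stb h
    have hT : Tor a b C d x := ⟨N, m, hN, hm⟩
    have hmem := (hA.mk_mem h x).2 hT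
    obtain ⟨e1, e2, e3⟩ := adm_e h hA
    rw [h.EE_val hs hS1 hm hN h0 h1]
    unfold Wv
    rw [Pool.MP_d0f9e0_co.PH.zL_eq_FZ hθ hyp latZ hstb hmem e1 e2 e3, fib_eq]
    have hc : cL S θ A Zl (QuotientAddGroup.mk x) =
        F S θ (coset x) ((1 : ℚ), (0 : ℚ)) (A ((1 : ℚ), (0 : ℚ))) := by
      unfold cL
      rw [cls_eq hS.cs hθ hyp (Pool.MP_d0f9e0_co.GH.fib_disc latZ _)
        (Pool.MP_d0f9e0_co.GH.fib_inv hstb hmem)
        ⟨Pool.MP_d0f9e0_co.GH.fib_per Zl _ e1, e2, e3⟩, fib_eq]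
    rw [hc, hA.e1]

open Classical in
/-- **(A2) for good pairs in one basis**, in the form of `NG.A2` (`p`, `y` have representatives
`-p'`, `-y'` with `0 < p'₂`, `0 ≤ y'₂`, `p'₂ + y'₂ < 1`). -/
theorem A2one (h : Mat a b (C : ℤ) d θ η) (hA : IsMat A a b (C : ℤ) d) (hs : AN.SS η s)
    (hS : DS S) (hS1 : ∀ x : ℝ, 0 < x → x < 1 + η → S 1 η x * ‖s x‖ = 1)
    (hT : ThmS C a d η (AN.EE s η C a)) [Fintype ↥(Fx A Zl)] (p y : ↥(Fx A Zl)) (p' y' : V)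
    (hp' : (QuotientAddGroup.mk p' : V ⧸ Zl) = -(p : V ⧸ Zl))
    (hy' : (QuotientAddGroup.mk y' : V ⧸ Zl) = -(y : V ⧸ Zl))
    (p0 : 0 < p'.2) (y0 : 0 ≤ y'.2) (py : p'.2 + y'.2 < 1) :
    ∑ g : ↥(Fx A Zl), (cL S θ A Zl g : ℂ) * cL S θ A Zl ((p - g : ↥(Fx A Zl)) : V ⧸ Zl) *
        (zL θ A Zl g / zL θ A Zl ((g - p : ↥(Fx A Zl)) : V ⧸ Zl)) * psi A Zl 1 g y =
      ((√η - (√η)⁻¹ : ℝ) : ℂ) * psi A Zl 1 p y *
        (cL S θ A Zl p * cL S θ A Zl y * cL S θ A Zl ((-y - p : ↥(Fx A Zl)) : V ⧸ Zl)) *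
        (zL θ A Zl p * zL θ A Zl y / (zL θ A Zl 0 * zL θ A Zl ((y + p : ↥(Fx A Zl)) : V ⧸ Zl))) := by
  have hθ := h.irrTheta hs.irr
  have hyp := hA.hyp h
  have hstb := hA.stb h
  have hη := h.one_lt
  have hη0 : (0 : ℝ) < η := h.etapos
  have hE : AN.LC C a d η (AN.EE s η C a) := by
    refine AN.LC_of_SS hs (by have := h.cpos; exact_mod_cast this) ?_
    exact ⟨b, by linear_combination h.det⟩
  have hW := WD_Wv h hA hs hS hS1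
  -- representatives are torsion points
  have tp : Tor a b C d p' := by
    rw [← hA.mk_mem h, hp']
    exact (Fx A Zl).neg_mem p.2
  have ty : Tor a b C d y' := by
    rw [← hA.mk_mem h, hy']
    exact (Fx A Zl).neg_mem y.2
  have key := h.A2rep hE hW hT tp ty p0 y0 py
  -- notation
  set c : V ⧸ Zl → ℂ := fun x => ((cL S θ A Zl x : ℝ) : ℂ) with hc
  set z : V ⧸ Zl → ℂ := fun x => zL θ A Zl x with hz
  have cne : ∀ x, c x ≠ 0 := fun x => by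
    have := (cL_pos hS hθ hyp (L := Zl) x).ne'
    show ((cL S θ A Zl x : ℝ) : ℂ) ≠ 0
    exact_mod_cast this
  have zne : ∀ x, z x ≠ 0 := fun x => Pool.MP_d0f9e0_co.PH.zL_ne θ A Zl x
  have c0 : c 0 = (√η : ℝ) := by
    have := cL_zero hS hθ hyp hη latZ hstb
    rw [hc]
    simp only
    rw [this]
  have cneg : ∀ x ∈ Fx A Zl, x ≠ 0 → c x * c (-x) = 1 := by
    intro x hx h0
    have := cL_neg hS hθ hyp hη latZ hstb hx h0
    rw [hc]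
    simp only
    rw [← Complex.ofReal_mul, this, Complex.ofReal_one]
  have zneg : ∀ x ∈ Fx A Zl, z (-x) = z x := fun x hx =>
    Pool.MP_d0f9e0_co.PH.zL_neg hθ hyp hη latZ hstb hx
  have hsq : ((√η : ℝ) : ℂ) * ((√η : ℝ) : ℂ) = η := by
    rw [← Complex.ofReal_mul, Real.mul_self_sqrt hη0.le]
  have hsq0 : ((√η : ℝ) : ℂ) ≠ 0 := by
    have := (Real.sqrt_pos.2 hη0).ne'
    exact_mod_cast this
  have W_eq : ∀ x : V, Wv S θ A x = z (QuotientAddGroup.mk x) / c (QuotientAddGroup.mk x) :=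
    fun x => rfl
  have isZ_iff : ∀ x : V, IsZ x ↔ (QuotientAddGroup.mk x : V ⧸ Zl) = 0 := by
    intro x
    rw [QuotientAddGroup.eq_zero_iff, mem_Zl]
  have Wn_eq : ∀ x : V, Tor a b C d x → Wn η (Wv S θ A) x =
      z (QuotientAddGroup.mk x) * c (-(QuotientAddGroup.mk x)) := by
    intro x hx
    unfold Wn
    by_cases h0 : IsZ x
    · rw [if_pos h0, (isZ_iff x).1 h0, W_eq, neg_zero, QuotientAddGroup.mk_zero, c0]
      field_simp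
      rw [sq, hsq]
      ring
    · rw [if_neg h0, W_eq]
      have h1 : (QuotientAddGroup.mk x : V ⧸ Zl) ≠ 0 := fun h2 => h0 ((isZ_iff x).2 h2)
      have h2 := cneg _ ((hA.mk_mem h x).2 hx) h1
      rw [div_eq_iff (cne _), mul_assoc, mul_comm (c (-_)), h2, mul_one]
  -- the kernel
  have ee_ex : ∀ t : ℝ, ee (t : ℂ) = ex t := fun t => rfl
  have ker : ∀ x y : V, Tor a b C d x → Tor a b C d y →
      ee (((Nq b d x * y.2 - mq a C x * y.1 : ℚ) : ℝ) : ℂ)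
        = psi A Zl 1 (QuotientAddGroup.mk x) (QuotientAddGroup.mk y) := by
    intro x y hx hy
    rw [psi_mk hyp latZ hstb ((hA.sub_mem_iff x).2 hx) ((hA.sub_mem_iff y).2 hy), ee_ex]
    congr 2
    rw [hA.sub]
    simp only [det, div_one]
  -- the sum
  have hΦ : ∀ x, Tor a b C d x → ∀ i j : ℤ,
      (fun x : V => Wn η (Wv S θ A) x / Wv S θ A (x - p') *
        psi A Zl 1 (QuotientAddGroup.mk x) (QuotientAddGroup.mk y')) (x + ((i : ℚ), (j : ℚ)))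
      = (fun x : V => Wn η (Wv S θ A) x / Wv S θ A (x - p') *
        psi A Zl 1 (QuotientAddGroup.mk x) (QuotientAddGroup.mk y')) x := by
    intro x hx i j
    simp only
    have e1 : (QuotientAddGroup.mk (x + ((i : ℚ), (j : ℚ))) : V ⧸ Zl) = QuotientAddGroup.mk x :=
      (mk_eq_iff _ _).2 ⟨i, j, rfl⟩
    rw [Wn_eq _ (hx.shift i j), Wn_eq _ hx, W_eq, W_eq, QuotientAddGroup.mk_sub,
      QuotientAddGroup.mk_sub, e1]
  have hsum := sum_G h hA (fun x : V => Wn η (Wv S θ A) x / Wv S θ A (x - p') *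
        psi A Zl 1 (QuotientAddGroup.mk x) (QuotientAddGroup.mk y')) hΦ
  have hL : ∑ m ∈ Finset.range C, ∑ N ∈ Finset.Ioc ((d - 1) * m / C) ((a + d - 2 + (d - 1) * m) / C),
      Wn η (Wv S θ A) (ptNm a b C d N m) / Wv S θ A (ptNm a b C d N m - p') *
        ee ((((N : ℚ) * y'.2 - ((m : ℕ) : ℤ) * y'.1 : ℚ) : ℝ) : ℂ)
      = ∑ g : ↥(Fx A Zl), z g * c (-(g : V ⧸ Zl)) * (c ((g : V ⧸ Zl) + p) / z ((g : V ⧸ Zl) + p)) *
        psi A Zl 1 (g : V ⧸ Zl) (-(y : V ⧸ Zl)) := by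
    have e1 : ∑ m ∈ Finset.range C, ∑ N ∈ Finset.Ioc ((d - 1) * m / C) ((a + d - 2 + (d - 1) * m) / C),
        Wn η (Wv S θ A) (ptNm a b C d N m) / Wv S θ A (ptNm a b C d N m - p') *
          ee ((((N : ℚ) * y'.2 - ((m : ℕ) : ℤ) * y'.1 : ℚ) : ℝ) : ℂ)
        = ∑ m ∈ Finset.range C, ∑ N ∈ Finset.Ioc ((d - 1) * m / C) ((a + d - 2 + (d - 1) * m) / C),
          (fun x : V => Wn η (Wv S θ A) x / Wv S θ A (x - p') *
            psi A Zl 1 (QuotientAddGroup.mk x) (QuotientAddGroup.mk y')) (ptNm a b C d N m) := by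
      refine Finset.sum_congr rfl fun m _ => Finset.sum_congr rfl fun N _ => ?_
      simp only
      rw [← ker _ _ ⟨N, m, h.Nq_ptNm N m, h.mq_ptNm N m⟩ ty, h.Nq_ptNm, h.mq_ptNm]
    rw [e1, hsum]
    refine Finset.sum_congr rfl fun g _ => ?_
    have hg : (QuotientAddGroup.mk ((g : V ⧸ Zl).out) : V ⧸ Zl) = g := QuotientAddGroup.out_eq' _
    have tg : Tor a b C d ((g : V ⧸ Zl).out) := by
      rw [← hA.mk_mem h, hg]
      exact g.2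
    rw [Wn_eq _ tg, W_eq, QuotientAddGroup.mk_sub, hg, hp', hy', sub_neg_eq_add, div_div_eq_mul_div,
      ← mul_div_assoc]
  rw [hL, ker _ _ tp ty, hp', hy'] at key
  have psineg : ∀ g y : ↥(Fx A Zl),
      psi A Zl 1 (-(g : V ⧸ Zl)) (-(y : V ⧸ Zl)) = psi A Zl 1 g y := by
    intro g y
    obtain ⟨q1, hq1⟩ := QuotientAddGroup.mk_surjective (g : V ⧸ Zl)
    obtain ⟨q2, hq2⟩ := QuotientAddGroup.mk_surjective (y : V ⧸ Zl)
    have t1 : A q1 - q1 ∈ Zl := by rw [← mem_Fx hstb, hq1]; exact g.2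
    have t2 : A q2 - q2 ∈ Zl := by rw [← mem_Fx hstb, hq2]; exact y.2
    have t1' : A (-q1) - (-q1) ∈ Zl := by
      have : A (-q1) - (-q1) = -(A q1 - q1) := by rw [map_neg]; abel
      rw [this]; exact Zl.neg_mem t1
    have t2' : A (-q2) - (-q2) ∈ Zl := by
      have : A (-q2) - (-q2) = -(A q2 - q2) := by rw [map_neg]; abel
      rw [this]; exact Zl.neg_mem t2
    rw [← hq1, ← hq2, ← QuotientAddGroup.mk_neg, ← QuotientAddGroup.mk_neg,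
      psi_mk hyp latZ hstb t1' t2', psi_mk hyp latZ hstb t1 t2]
    congr 3
    have : A (-q1) - (-q1) = -(A q1 - q1) := by rw [map_neg]; abel
    rw [this, det_neg_left, det_neg_right, neg_neg]
  have psi0 : ∀ g : ↥(Fx A Zl), psi A Zl 1 (g : V ⧸ Zl) 0 = 1 := by
    intro g
    obtain ⟨q1, hq1⟩ := QuotientAddGroup.mk_surjective (g : V ⧸ Zl)
    have t1 : A q1 - q1 ∈ Zl := by rw [← mem_Fx hstb, hq1]; exact g.2
    have t2 : A (0 : V) - 0 ∈ Zl := by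
      have : A (0 : V) - 0 = 0 := by rw [map_zero, sub_zero]
      rw [this]; exact Zl.zero_mem
    rw [← hq1, ← QuotientAddGroup.mk_zero, psi_mk hyp latZ hstb t1 t2]
    have : det (A q1 - q1) (0 : V) = 0 := by simp [det]
    rw [this]
    simp [ex]
  -- reindex `g ↦ -g`
  have hre : ∑ g : ↥(Fx A Zl), z g * c (-(g : V ⧸ Zl)) *
      (c ((g : V ⧸ Zl) + p) / z ((g : V ⧸ Zl) + p)) * psi A Zl 1 (g : V ⧸ Zl) (-(y : V ⧸ Zl))
      = ∑ g : ↥(Fx A Zl), c g * c ((p - g : ↥(Fx A Zl)) : V ⧸ Zl) *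
        (z g / z ((g - p : ↥(Fx A Zl)) : V ⧸ Zl)) * psi A Zl 1 g y := by
    rw [← Equiv.sum_comp (Equiv.neg ↥(Fx A Zl))]
    refine Finset.sum_congr rfl fun g _ => ?_
    have e1 : ((Equiv.neg ↥(Fx A Zl)) g : V ⧸ Zl) = -(g : V ⧸ Zl) := rfl
    have e2 : psi A Zl 1 (-(g : V ⧸ Zl)) (-(y : V ⧸ Zl)) = psi A Zl 1 g y := psineg g y
    have m1 : ((g : V ⧸ Zl) - p) ∈ Fx A Zl := (Fx A Zl).sub_mem g.2 p.2
    rw [e1, e2, neg_neg, zneg _ g.2]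
    have e3 : -(g : V ⧸ Zl) + p = (p : V ⧸ Zl) - g := by abel
    have e4 : (p : V ⧸ Zl) - g = -((g : V ⧸ Zl) - p) := by abel
    rw [e3, e4, zneg _ m1, ← e4]
    have e5 : ((p - g : ↥(Fx A Zl)) : V ⧸ Zl) = (p : V ⧸ Zl) - g := rfl
    have e6 : ((g - p : ↥(Fx A Zl)) : V ⧸ Zl) = (g : V ⧸ Zl) - p := rfl
    rw [e5, e6]
    ring
  rw [hre] at key
  show ∑ g : ↥(Fx A Zl), c g * c ((p - g : ↥(Fx A Zl)) : V ⧸ Zl) *
      (z g / z ((g - p : ↥(Fx A Zl)) : V ⧸ Zl)) * psi A Zl 1 g y = _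
  rw [key]
  have yP : (QuotientAddGroup.mk (y' + p') : V ⧸ Zl) = -(y : V ⧸ Zl) - p := by
    rw [QuotientAddGroup.mk_add, hy', hp', sub_eq_add_neg]
  have pne : (p : V ⧸ Zl) ≠ 0 := by
    intro h0
    have h1 : (QuotientAddGroup.mk p' : V ⧸ Zl) = 0 := by rw [hp', h0, neg_zero]
    obtain ⟨i, j, hij⟩ := (isZ_iff p').2 h1
    have h2 : p'.2 = (j : ℚ) := by rw [hij]
    have h3 : (0 : ℚ) < j := by rw [← h2]; exact p0
    have h4 : (j : ℚ) < 1 := by rw [← h2]; linarith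
    have h5 : 0 < j := by exact_mod_cast h3
    have h6 : j < 1 := by exact_mod_cast h4
    omega
  have m2 : (y : V ⧸ Zl) + p ∈ Fx A Zl := (Fx A Zl).add_mem y.2 p.2
  have hz2 : z (-(y : V ⧸ Zl) - p) = z ((y : V ⧸ Zl) + p) := by
    have : -(y : V ⧸ Zl) - p = -((y : V ⧸ Zl) + p) := by abel
    rw [this, zneg _ m2]
  have ecP := cneg _ p.2 pne
  have hW0 : Wv S θ A 0 = z 0 / ((√η : ℝ) : ℂ) := by
    rw [W_eq, QuotientAddGroup.mk_zero, c0]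
  have hk : ((√η - (√η)⁻¹ : ℝ) : ℂ) * ((√η : ℝ) : ℂ) = (η : ℂ) - 1 := by
    push_cast
    rw [sub_mul, hsq, inv_mul_cancel₀ hsq0]
  have hηne : (η : ℂ) ≠ 0 := by exact_mod_cast hη0.ne'
  have e6 : ((y + p : ↥(Fx A Zl)) : V ⧸ Zl) = (y : V ⧸ Zl) + p := rfl
  have e7 : ((-y - p : ↥(Fx A Zl)) : V ⧸ Zl) = -(y : V ⧸ Zl) - p := rfl
  rw [psineg p y, W_eq p', W_eq y', W_eq (y' + p'), hW0, hp', hy', yP, hz2, zneg _ p.2, zneg _ y.2]
  show _ = ((√η - (√η)⁻¹ : ℝ) : ℂ) * psi A Zl 1 p y *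
        (c p * c y * c ((-y - p : ↥(Fx A Zl)) : V ⧸ Zl)) *
        (z p * z y / (z 0 * z ((y + p : ↥(Fx A Zl)) : V ⧸ Zl)))
  rw [e6, e7]
  have n1 := cne (p : V ⧸ Zl)
  have n2 := cne (-(p : V ⧸ Zl))
  have n3 := cne (y : V ⧸ Zl)
  have n4 := cne (-(y : V ⧸ Zl))
  have n5 := cne (-(y : V ⧸ Zl) - p)
  have n6 := zne (p : V ⧸ Zl)
  have n7 := zne (y : V ⧸ Zl)
  have n8 := zne 0
  have n9 := zne ((y : V ⧸ Zl) + p)
  by_cases hy0 : (y : V ⧸ Zl) = 0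
  · have hiz : IsZ y' := (isZ_iff y').2 (by rw [hy', hy0, neg_zero])
    rw [if_pos hiz, hy0, psi0 p, neg_zero, zero_add, zero_sub, c0]
    have L1 : z (p : V ⧸ Zl) / c (-(p : V ⧸ Zl)) * (z 0 / ((√η : ℝ) : ℂ)) * 1 /
        (z 0 / ((√η : ℝ) : ℂ) * (z (p : V ⧸ Zl) / c (-(p : V ⧸ Zl)))) = 1 := by
      field_simp
    have R1 : ((√η - (√η)⁻¹ : ℝ) : ℂ) * 1 * (c (p : V ⧸ Zl) * ((√η : ℝ) : ℂ) * c (-(p : V ⧸ Zl))) *
        (z (p : V ⧸ Zl) * z 0 / (z 0 * z (p : V ⧸ Zl))) = (η : ℂ) - 1 := by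
      have : z (p : V ⧸ Zl) * z 0 / (z 0 * z (p : V ⧸ Zl)) = 1 := by field_simp
      rw [this]
      linear_combination ((√η - (√η)⁻¹ : ℝ) : ℂ) * ((√η : ℝ) : ℂ) * ecP + hk
    rw [L1, R1]
    field_simp
    ring
  · have hiz : ¬ IsZ y' := fun h1 => hy0 (by
      have := (isZ_iff y').1 h1
      rwa [hy', neg_eq_zero] at this)
    have ecY := cneg _ y.2 hy0
    rw [if_neg hiz, add_zero]
    have i1 : z (p : V ⧸ Zl) / c (-(p : V ⧸ Zl)) = z (p : V ⧸ Zl) * c (p : V ⧸ Zl) := by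
      rw [div_eq_iff n2, mul_assoc, ecP, mul_one]
    have i2 : z (y : V ⧸ Zl) / c (-(y : V ⧸ Zl)) = z (y : V ⧸ Zl) * c (y : V ⧸ Zl) := by
      rw [div_eq_iff n4, mul_assoc, ecY, mul_one]
    rw [i1, i2]
    have i3 : ((η : ℂ) - 1) / η * ((√η : ℝ) : ℂ) = ((√η - (√η)⁻¹ : ℝ) : ℂ) := by
      rw [← hk, ← hsq]
      field_simp
    rw [← i3]
    field_simp

end

end Pool.Agent.MP_d0f9e0_co.AN45
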