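import Pool.Agent.Lib.MP_d0f9e0_co.AN45.One
import Pool.Agent.Lib.MP_d0f9e0_co.AN.BetaC
import Pool.Agent.Lib.MP_d0f9e0_co.AN.All
import Pool.Agent.Lib.MP_d0f9e0_co.F7.SSof
import Pool.Agent.Lib.MP_d0f9e0_co.DS71f
import Pool.Agent.Lib.MP_d0f9e0_co.SH.Inst

/-!
# (A2) in one basis for the double sine function
-/

set_option autoImplicit false

namespace Pool.Agent.MP_d0f9e0_co.AN45

open Pool.MP_d0f9e0_co.SH hiding Fx
open Pool.MP_d0f9e0_co.GH Set
open Pool.Agent.Lib.MP_d0f9e0_co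
open Pool.MP_d0f9e0_co.CS (ee)

/-- THEOREM S for a level `c` family, at the points of `H^G`. -/
theorem thmS {a d : ℤ} {C : ℕ} {η : ℝ} {E : ℂ → ℤ → ℂ} (h : AN.LC C a d η E)
    (hirr : Irrational η) (htr : η + 1 / η = a + d) : ThmS C a d η E := by
  intro Np mp Ny my h1 h2 h3 h4 zp zy hzp hzy
  have hη := h.one_lt
  have hη0 : 0 < η := by linarith
  have hη1 : η - 1 ≠ 0 := by linarith
  have hC : (0 : ℝ) < C := by exact_mod_cast h.c_pos
  have hn : (0 : ℝ) < (a : ℝ) + d - 2 := by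
    have : (0 : ℤ) < a + d - 2 := by linarith
    exact_mod_cast this
  have hsq : (η - 1) * (η - 1) = ((a : ℝ) + d - 2) * η := by
    have : (η + 1 / η) * η = (a + d) * η := by rw [htr]
    have h5 : (η + 1 / η) * η = η * η + 1 := by field_simp
    linarith
  have key : ∀ N m : ℤ, AN.zz η C d N m =
      ((C * N - (d - 1) * m : ℤ) : ℝ) / (a + d - 2) * ((η - 1) / C) := by
    intro N m
    unfold AN.zz
    have h6 : (1 - 1 / η) ≠ 0 := by
      have : 1 - 1 / η = (η - 1) / η := by field_simp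
      rw [this]
      exact div_ne_zero hη1 hη0.ne'
    rw [div_eq_iff h6]
    push_cast
    have h7 : ((a : ℝ) + d - 2) ≠ 0 := hn.ne'
    field_simp
    linear_combination -(C * N - (d - 1) * m : ℝ) * hsq
  have hz : ∀ N m : ℤ, ∀ z : ℝ,
      z = ((C * N - (d - 1) * m : ℤ) : ℝ) / (a + d - 2) * ((η - 1) / C) →
      z * (1 - 1 / η) + (d - 1) * m / C = N := by
    intro N m z hz
    have h6 : (1 - 1 / η) ≠ 0 := by
      have : 1 - 1 / η = (η - 1) / η := by field_simp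
      rw [this]
      exact div_ne_zero hη1 hη0.ne'
    have := key N m
    rw [← hz] at this
    unfold AN.zz at this
    rw [← this, div_mul_cancel₀ _ h6]
    ring
  have kp : (0 : ℝ) < ((C * Np - (d - 1) * mp : ℤ) : ℝ) := by exact_mod_cast h1
  have ky : (0 : ℝ) ≤ ((C * Ny - (d - 1) * my : ℤ) : ℝ) := by exact_mod_cast h3
  have kpy : ((C * Np - (d - 1) * mp : ℤ) : ℝ) + ((C * Ny - (d - 1) * my : ℤ) : ℝ) <
      (a : ℝ) + d - 2 := by exact_mod_cast h4
  have e1 : 0 < (η - 1) / C := div_pos (by linarith) hC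
  have zp0 : 0 < zp := by
    rw [hzp]
    exact mul_pos (div_pos kp hn) e1
  have zy0 : 0 ≤ zy := by
    rw [hzy]
    exact mul_nonneg (div_nonneg ky hn.le) e1.le
  have zpy : zp + zy < (η - 1) / C := by
    rw [hzp, hzy, ← add_mul, ← add_div]
    have : (((C * Np - (d - 1) * mp : ℤ) : ℝ) + ((C * Ny - (d - 1) * my : ℤ) : ℝ)) /
        ((a : ℝ) + d - 2) < 1 := (div_lt_one hn).2 kpy
    calc _ < 1 * ((η - 1) / C) := mul_lt_mul_of_pos_right this e1
      _ = _ := one_mul _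
  have hnn : ∀ n : ℕ, zp ≠ n / C := by
    intro n hzn
    have h8 : ((C * Np - (d - 1) * mp : ℤ) : ℝ) * (η - 1) = n * ((a : ℝ) + d - 2) := by
      have := hzp.symm.trans hzn
      field_simp at this
      linarith
    have h9 : η = ((n * (a + d - 2) : ℤ) : ℝ) / ((C * Np - (d - 1) * mp : ℤ) : ℝ) + ((1 : ℤ) : ℝ) := by
      rw [← sub_eq_iff_eq_add, eq_div_iff kp.ne']
      push_cast at h8 ⊢
      linarith
    refine hirr ?_
    refine ⟨((n * (a + d - 2) : ℤ) : ℚ) / ((C * Np - (d - 1) * mp : ℤ) : ℚ) + ((1 : ℤ) : ℚ), ?_⟩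
    rw [h9]
    push_cast
    ring
  have hb : ∀ x0 : ℝ, 0 < x0 → x0 < zp → x0 < 1 / C →
      Complex.I * ∑ m ∈ Finset.range C, ∫ t : ℝ, AN.FF E η C a d zp mp zy my (x0 + t * Complex.I) m =
        AN.RR E η C a d zp mp zy my := by
    intro x0 hx0 hx1 _
    refine h.beta zp0 hnn mp my ?_ ?_ hx0 hx1
    · rw [Complex.ofReal_re]
      have : (-1 : ℝ) / C < 0 := div_neg_of_neg_of_pos (by norm_num) hC
      linarith
    · rw [Complex.ofReal_re]
      have : (η - 1) / C < η / C := div_lt_div_of_pos_right (by linarith) hC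
      linarith
  have main := AN.LC.sum_formula_of_beta h htr (hz Np mp zp hzp) (hz Ny my zy hzy) zp0 zy0 zpy hb
  have hif : (zy = 0 ∧ (C : ℤ) ∣ my) ↔ (C * Ny - (d - 1) * my = 0 ∧ (C : ℤ) ∣ my) := by
    refine and_congr_left fun _ => ?_
    rw [hzy]
    constructor
    · intro h0
      rcases mul_eq_zero.1 h0 with h0 | h0
      · rcases div_eq_zero_iff.1 h0 with h0 | h0
        · exact_mod_cast h0
        · exact absurd h0 hn.ne'
      · exact absurd h0 e1.ne'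
    · intro h0
      rw [h0]
      simp
  have hR : (if zy = 0 ∧ (C : ℤ) ∣ my then ((η - 1) ^ 2 / η : ℂ) else 0) =
      (if C * Ny - (d - 1) * my = 0 ∧ (C : ℤ) ∣ my then ((η : ℂ) - 1) ^ 2 / η else 0) := by
    by_cases h0 : (zy = 0 ∧ (C : ℤ) ∣ my)
    · rw [if_pos h0, if_pos (hif.1 h0)]
    · rw [if_neg h0, if_neg (fun h5 => h0 (hif.2 h5))]
  rw [hR] at main
  rw [← main]
  refine Finset.sum_congr rfl fun m _ => ?_
  refine Finset.sum_congr rfl fun N _ => ?_
  rw [key N m]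

/-- The matrix of a hyperbolic map of `Zl`. -/
theorem exists_mat {θ η : ℝ} {A : V ≃+ V} (hθ : Irrational θ) (hA : Hyp θ A η) (h1 : 1 < η)
    (hL : Stb A Zl) (hpos : 0 < det ((1 : ℚ), (0 : ℚ)) (A ((1 : ℚ), (0 : ℚ)))) :
    ∃ (a b d : ℤ) (C : ℕ), IsMat A a b (C : ℤ) d ∧ Mat a b (C : ℤ) d θ η := by
  have m1 : A ((1 : ℚ), (0 : ℚ)) ∈ Zl := (hL _).2 ((mem_Zl _).2 ⟨1, 0, by simp⟩)
  have m2 : A ((0 : ℚ), (1 : ℚ)) ∈ Zl := (hL _).2 ((mem_Zl _).2 ⟨0, 1, by simp⟩)
  obtain ⟨d, c, hd⟩ := (mem_Zl _).1 m1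
  obtain ⟨b, a, hb⟩ := (mem_Zl _).1 m2
  have hc : (0 : ℚ) < c := by
    rw [hd] at hpos
    simpa [det] using hpos
  have hc' : 0 < c := by exact_mod_cast hc
  obtain ⟨C, rfl⟩ := Int.eq_ofNat_of_zero_le hc'.le
  refine ⟨a, b, d, C, ⟨hd, hb⟩, ?_, hc', h1, ?_, ?_⟩
  · have := hA.det_eq ((1 : ℚ), (0 : ℚ)) ((0 : ℚ), (1 : ℚ))
    rw [hd, hb] at this
    simp only [det] at this
    have h2 : ((d * a - C * b : ℤ) : ℚ) = 1 := by
      push_cast at this ⊢
      linarith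
    have h3 : (d * a - C * b : ℤ) = 1 := by exact_mod_cast h2
    linear_combination h3
  · have := hA.ell_eq ((1 : ℚ), (0 : ℚ))
    rw [hd] at this
    simp only [ell] at this
    push_cast at this ⊢
    linarith
  · have := hA.ell_eq ((0 : ℚ), (1 : ℚ))
    rw [hb] at this
    simp only [ell] at this
    push_cast at this ⊢
    linarith

open Pool.Agent.DS71 in
/-- **(A2) in one basis for the double sine function.** -/
theorem oneA2 : AN.OneA2 Sr := by
  intro θ A η _ hθ hA h1 hL hpos p y hp hy p0 y0 py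
  obtain ⟨a, b, d, C, hM, h⟩ := exists_mat hθ hA h1 hL hpos
  have hirr : Irrational η := by
    rintro ⟨q, hq⟩
    apply hθ
    have hc : (C : ℝ) ≠ 0 := by
      have := h.cR
      exact_mod_cast this
    refine ⟨(q - d) / C, ?_⟩
    have := h.eta
    push_cast at this ⊢
    rw [div_eq_iff hc, hq]
    linarith
  have hs := Pool.Agent.F7.ss_fad h1 hirr
  have hS1 : ∀ x : ℝ, 0 < x → x < 1 + η → Sr 1 η x * ‖Pool.Agent.F7.fad 1 η x‖ = 1 := by
    intro x hx0 hx1
    rw [SS_norm hs hx0 hx1]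
    exact mul_inv_cancel₀ (ds_Sr.pos 1 η x one_pos (by linarith) (by simpa using hirr) hx0 hx1).ne'
  have hE : AN.LC C a d η (AN.EE (Pool.Agent.F7.fad 1 η) η C a) := by
    refine AN.LC_of_SS hs (by have := h.cpos; exact_mod_cast this) ?_
    exact ⟨b, by linear_combination h.det⟩
  have htr : η + 1 / η = a + d := by rw [h.inv_eq]; ring
  have key := A2one h hM hs ds_Sr hS1 (thmS hE hirr htr)
    (-⟨QuotientAddGroup.mk p, hp⟩ : ↥(Fx A Zl)) (-⟨QuotientAddGroup.mk y, hy⟩ : ↥(Fx A Zl)) p y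
    (by
      show (QuotientAddGroup.mk p : V ⧸ Zl) = -(-(QuotientAddGroup.mk p : V ⧸ Zl))
      rw [neg_neg])
    (by
      show (QuotientAddGroup.mk y : V ⧸ Zl) = -(-(QuotientAddGroup.mk y : V ⧸ Zl))
      rw [neg_neg]) p0 y0 py
  exact key

end Pool.Agent.MP_d0f9e0_co.AN45
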