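import Pool.Agent.Lib.MP_d0f9e0_co.SH.Fan

/-!
# (S5): the points of `x + ℤ²` in the parallelogram of `e = (1,0)` and `η e = (d,c)`

`A = [[a,b],[c,d]] ∈ SL₂(ℤ)`, `η (v₁,v₂) = (d v₁ + b v₂, c v₁ + a v₂)` in the coordinates
`v₁ + v₂ β`.  For a torsion point `x`, `(η-1) x ∈ ℤ²`, with `0 ≤ x₂ < 1`, the points are
`p_j = ((j - x₂)/c) e + ((x₂ + k_j)/c) η e`, `j = 1..c`, `k_j = (m - a j) mod c`,
`m = c x₁ + (a-1) x₂`.
-/

set_option autoImplicit false

namespace Pool.Agent.MP_d0f9e0_co.AN45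

open Pool.MP_d0f9e0_co.SH Set

/-- the coset `x + ℤ²` -/
def coset (x : V) : Set V := {p | ∃ i j : ℤ, p.1 = x.1 + i ∧ p.2 = x.2 + j}

/-- the point `p_j` -/
def ptj (c d : ℤ) (x : V) (j k : ℤ) : V :=
  (((j : ℚ) - x.2 + d * (x.2 + k)) / c, x.2 + k)

section
variable {a b c d : ℤ} (hdet : a * d - b * c = 1) (hc : 0 < c)
variable {x : V} {m N : ℤ} (hm : (c : ℚ) * x.1 + (a - 1) * x.2 = m)
  (hN : ((d : ℚ) - 1) * x.1 + b * x.2 = N)

include hdet hc hm hN in
theorem ptj_mem_coset {j k : ℤ} (hk : c ∣ m - a * j - k) : ptj c d x j k ∈ coset x := by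
  have hcQ : (c : ℚ) ≠ 0 := by exact_mod_cast hc.ne'
  obtain ⟨t, ht⟩ := hk
  -- first coordinate minus `x.1` is `N - b j - d t`
  refine ⟨N - b * j - d * t, k, ?_, rfl⟩
  have hdQ : (a : ℚ) * d - b * c = 1 := by exact_mod_cast hdet
  have htQ : (m : ℚ) - a * j - k = c * t := by exact_mod_cast ht
  show ((j : ℚ) - x.2 + d * (x.2 + k)) / c = x.1 + ((N - b * j - d * t : ℤ) : ℚ)
  rw [div_eq_iff hcQ]
  push_cast
  linear_combination (c : ℚ) * hN - (d : ℚ) * htQ - (d : ℚ) * hm + (x.2 - j) * hdQ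

/-- coordinates of `ptj`: `det p (ηe) = j - x₂`, `det e p = x₂ + k`, `det e (ηe) = c` -/
theorem det_ptj_right (c d : ℤ) (hc : 0 < c) (x : V) (j k : ℤ) :
    det (ptj c d x j k) (d, c) = j - x.2 := by
  have hcQ : (c : ℚ) ≠ 0 := by exact_mod_cast hc.ne'
  simp only [det, ptj]
  field_simp
  ring

theorem det_left_ptj (c d : ℤ) (x : V) (j k : ℤ) : det (1, 0) (ptj c d x j k) = x.2 + k := by
  simp only [det, ptj]
  ring

theorem det_e_etae (c d : ℤ) : det (1, 0) ((d, c) : V) = c := by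
  simp only [det]
  ring

include hdet hm hN in
/-- every point of the coset in the parallelogram is a `ptj` -/
theorem exists_ptj (hx0 : 0 ≤ x.2) (hx1 : x.2 < 1) {p : V} (hp : p ∈ coset x)
    (hP : p ∈ Par (1, 0) ((d, c) : V)) :
    ∃ j k : ℤ, 1 ≤ j ∧ j ≤ c ∧ 0 ≤ k ∧ k < c ∧ c ∣ m - a * j - k ∧ p = ptj c d x j k := by
  obtain ⟨i, k, h1, h2⟩ := hp
  obtain ⟨q1, q2, q3, q4⟩ := hP
  rw [det_e_etae] at q2 q4
  have e1 : det p ((d, c) : V) = c * p.1 - d * p.2 := by
    simp only [det]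
    ring
  have e2 : det (1, 0) p = p.2 := by
    simp only [det]
    ring
  rw [e1] at q1 q2
  rw [e2] at q3 q4
  -- `j = c p₁ - d p₂ + x₂`
  have hdQ : (a : ℚ) * d - b * c = 1 := by exact_mod_cast hdet
  set j : ℤ := c * i - d * k - c * N + d * m with hjd
  have hj : (c : ℚ) * p.1 - d * p.2 + x.2 = (j : ℚ) := by
    rw [h1, h2, hjd]
    push_cast
    linear_combination (d : ℚ) * hm - (c : ℚ) * hN - x.2 * hdQ
  have hcQ : (c : ℚ) ≠ 0 := by
    intro h
    rw [h] at q2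
    linarith
  have hjpos : 0 < j := by
    have : (0 : ℚ) < j := by linarith
    exact_mod_cast this
  have hjc : j < c + 1 := by
    have : (j : ℚ) < c + 1 := by linarith
    exact_mod_cast this
  have hk0 : -1 < k := by
    have : (-1 : ℚ) < k := by linarith
    exact_mod_cast this
  have hkc : k < c := by
    have : (k : ℚ) < c := by linarith
    exact_mod_cast this
  refine ⟨j, k, by omega, by omega, by omega, hkc, ?_, ?_⟩
  · refine ⟨-(b * m) + b * k - a * i + a * N, ?_⟩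
    rw [hjd]
    linear_combination (k - m) * hdet
  · refine Prod.ext ?_ ?_
    · show p.1 = ((j : ℚ) - x.2 + d * (x.2 + k)) / c
      rw [eq_div_iff hcQ, ← hj, h2]
      ring
    · show p.2 = x.2 + k
      exact h2

include hdet hc hm hN in
/-- the points of the coset in the parallelogram -/
theorem coset_inter_Par (hx0 : 0 ≤ x.2) (hx1 : x.2 < 1) :
    coset x ∩ Par (1, 0) ((d, c) : V)
      = (fun j : ℤ => ptj c d x j ((m - a * j) % c)) '' Set.Icc 1 c := by
  have hcz : c ≠ 0 := hc.ne'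
  ext p
  constructor
  · rintro ⟨hp, hP⟩
    obtain ⟨j, k, h1, h2, h3, h4, h5, h6⟩ := exists_ptj hdet hm hN hx0 hx1 hp hP
    refine ⟨j, ⟨h1, h2⟩, ?_⟩
    have : (m - a * j) % c = k := by
      have h8 : (m - a * j) % c = k % c := Int.emod_eq_emod_iff_emod_sub_eq_zero.2
        (Int.emod_eq_zero_of_dvd h5)
      rw [h8, Int.emod_eq_of_lt h3 h4]
    rw [h6, ← this]
  · rintro ⟨j, ⟨h1, h2⟩, rfl⟩
    have hk : c ∣ m - a * j - (m - a * j) % c := Int.dvd_self_sub_emod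
    have hk0 : 0 ≤ (m - a * j) % c := Int.emod_nonneg _ hcz
    have hk1 : (m - a * j) % c < c := Int.emod_lt_of_pos _ hc
    refine ⟨ptj_mem_coset hdet hc hm hN hk, ?_⟩
    have g1 : (1 : ℚ) ≤ j := by exact_mod_cast h1
    have g2 : (j : ℚ) ≤ c := by exact_mod_cast h2
    have g3 : (0 : ℚ) ≤ (((m - a * j) % c : ℤ) : ℚ) := by exact_mod_cast hk0
    have g4 : (((m - a * j) % c : ℤ) : ℚ) ≤ c - 1 := by
      have : (m - a * j) % c ≤ c - 1 := by omega
      exact_mod_cast this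
    refine ⟨?_, ?_, ?_, ?_⟩
    · rw [det_ptj_right c d hc]
      linarith
    · rw [det_ptj_right c d hc, det_e_etae]
      linarith
    · rw [det_left_ptj]
      linarith
    · rw [det_left_ptj, det_e_etae]
      linarith

include hc in
theorem ptj_injOn (x : V) (k : ℤ → ℤ) :
    Set.InjOn (fun j : ℤ => ptj c d x j (k j)) (Set.Icc 1 c) := by
  intro j _ j' _ h
  have h1 := det_ptj_right c d hc x j (k j)
  have h2 := det_ptj_right c d hc x j' (k j')
  simp only at h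
  rw [h, h2] at h1
  have : (j : ℚ) = j' := by linarith
  exact_mod_cast this

include hdet hc hm hN in
/-- **(S5), products.** -/
theorem finprod_coset {M : Type*} [CommMonoid M] (f : V → M) (hx0 : 0 ≤ x.2) (hx1 : x.2 < 1) :
    ∏ᶠ p ∈ coset x ∩ Par (1, 0) ((d, c) : V), f p
      = ∏ j ∈ Finset.Icc 1 c, f (ptj c d x j ((m - a * j) % c)) := by
  rw [coset_inter_Par hdet hc hm hN hx0 hx1, finprod_mem_image (ptj_injOn hc x _)]
  have : (Set.Icc 1 c : Set ℤ) = ((Finset.Icc 1 c : Finset ℤ) : Set ℤ) := by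
    rw [Finset.coe_Icc]
  rw [this, finprod_mem_coe_finset]

end

end Pool.Agent.MP_d0f9e0_co.AN45
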