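import Mathlib

/-!
# (S7): choice of the ray (Project Z, MP_d0f9e0_co)

For two torsion points `p`, `y` of `ℚ²/ℤ²` (killed by `n`), `p ∉ ℤ²`, there is a primitive vector `e`
which is positive at two given real places such that the fractional parts of `det p e` and
`det y e` have sum at most `1` and the first one is positive.
-/

set_option autoImplicit false

namespace Pool.Agent.MP_d0f9e0_co.AN45

/-- the symplectic form -/
def dt (p e : ℚ × ℚ) : ℚ := p.1 * e.2 - p.2 * e.1

theorem fract_eq_of_int {x y : ℚ} {k : ℤ} (h : x = y + k) : Int.fract x = Int.fract y := by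
  rw [h, Int.fract_add_intCast]

theorem fract_neg_int {x y : ℚ} {k : ℤ} (h : x = -y + k) : Int.fract x = Int.fract (-y) := by
  rw [h, Int.fract_add_intCast]

theorem exists_large (θ θ' : ℝ) (n : ℕ) (hn : 0 < n) :
    ∃ l : ℕ, (∀ s t : ℝ, -1 ≤ s → (t = 1 ∨ t = -1 ∨ t = n) →
      0 < (n : ℝ) * l + s + t * θ ∧ 0 < (n : ℝ) * l + s + t * θ') := by
  obtain ⟨l, hl⟩ := exists_nat_gt (1 + (n : ℝ) * (|θ| + |θ'|) + (|θ| + |θ'|))
  refine ⟨l, fun s t hs ht => ?_⟩
  have hn1 : (1 : ℝ) ≤ n := by exact_mod_cast hn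
  have h0 := abs_nonneg θ
  have h0' := abs_nonneg θ'
  have hl0 : (0 : ℝ) ≤ l := Nat.cast_nonneg l
  have hnl : (l : ℝ) ≤ n * l := by nlinarith
  have a1 := neg_abs_le θ
  have a2 := le_abs_self θ
  have a3 := neg_abs_le θ'
  have a4 := le_abs_self θ'
  have m1 : (n : ℝ) * (-|θ|) ≤ n * θ := mul_le_mul_of_nonneg_left a1 (by linarith)
  have m2 : (n : ℝ) * (-|θ'|) ≤ n * θ' := mul_le_mul_of_nonneg_left a3 (by linarith)
  have m3 : 0 ≤ (n : ℝ) * |θ| := mul_nonneg (by linarith) h0
  have m4 : 0 ≤ (n : ℝ) * |θ'| := mul_nonneg (by linarith) h0'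
  rcases ht with rfl | rfl | rfl
  · constructor <;> nlinarith
  · constructor <;> nlinarith
  · constructor <;> nlinarith

/-- The arithmetic heart: if `e`, `e'` are two vectors with `dt x e' ≡ - dt x e` for the torsion
points, one of them is good. -/
theorem good_or {a b a' b' : ℚ} {k l : ℤ} (ha : a' = -a + k) (hb : b' = -b + l)
    (h0 : Int.fract a ≠ 0) :
    (0 < Int.fract a ∧ Int.fract a + Int.fract b ≤ 1) ∨
      (0 < Int.fract a' ∧ Int.fract a' + Int.fract b' ≤ 1) := by
  have pos : 0 < Int.fract a := lt_of_le_of_ne (Int.fract_nonneg a) (Ne.symm h0)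
  by_cases h : Int.fract a + Int.fract b ≤ 1
  · exact Or.inl ⟨pos, h⟩
  · right
    push Not at h
    have fa : Int.fract a' = 1 - Int.fract a := by
      rw [fract_neg_int ha, Int.fract_neg h0]
    have hb0 : Int.fract b ≠ 0 := by
      intro h2
      rw [h2, add_zero] at h
      exact absurd (Int.fract_lt_one a) (not_lt.2 h.le)
    have fb : Int.fract b' = 1 - Int.fract b := by
      rw [fract_neg_int hb, Int.fract_neg hb0]
    rw [fa, fb]
    refine ⟨by linarith [Int.fract_lt_one a], by linarith⟩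

/-- **(S7).** -/
theorem exists_ray (θ θ' : ℝ) (n : ℕ) (hn : 0 < n) (p y : ℚ × ℚ)
    (hp : ∃ i j : ℤ, (n : ℚ) * p.1 = i ∧ (n : ℚ) * p.2 = j)
    (hy : ∃ i j : ℤ, (n : ℚ) * y.1 = i ∧ (n : ℚ) * y.2 = j)
    (hp0 : ¬ ∃ i j : ℤ, p.1 = i ∧ p.2 = j) :
    ∃ u v : ℤ, IsCoprime u v ∧ 0 < (u : ℝ) + v * θ ∧ 0 < (u : ℝ) + v * θ' ∧
      0 < Int.fract (p.1 * v - p.2 * u) ∧
      Int.fract (p.1 * v - p.2 * u) + Int.fract (y.1 * v - y.2 * u) ≤ 1 := by
  obtain ⟨i, j, hi, hj⟩ := hp
  obtain ⟨i', j', hi', hj'⟩ := hy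
  obtain ⟨l, hl⟩ := exists_large θ θ' n hn
  by_cases h2 : Int.fract p.2 = 0
  · -- then `p.1` is not an integer: use `(n l, 1)` and `(n l, -1)`
    have h1 : Int.fract p.1 ≠ 0 := by
      intro h1
      apply hp0
      refine ⟨⌊p.1⌋, ⌊p.2⌋, ?_, ?_⟩
      · have := Int.floor_add_fract p.1
        rw [h1, add_zero] at this
        exact this.symm
      · have := Int.floor_add_fract p.2
        rw [h2, add_zero] at this
        exact this.symm
    have e1 : p.1 * ((1 : ℤ) : ℚ) - p.2 * (((n : ℤ) * l : ℤ) : ℚ) = p.1 + ((-(l * j) : ℤ) : ℚ) := by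
      push_cast
      linear_combination (-(l : ℚ)) * hj
    have e2 : y.1 * ((1 : ℤ) : ℚ) - y.2 * (((n : ℤ) * l : ℤ) : ℚ) = y.1 + ((-(l * j') : ℤ) : ℚ) := by
      push_cast
      linear_combination (-(l : ℚ)) * hj'
    have e3 : p.1 * ((-1 : ℤ) : ℚ) - p.2 * (((n : ℤ) * l : ℤ) : ℚ) = -p.1 + ((-(l * j) : ℤ) : ℚ) := by
      push_cast
      linear_combination (-(l : ℚ)) * hj
    have e4 : y.1 * ((-1 : ℤ) : ℚ) - y.2 * (((n : ℤ) * l : ℤ) : ℚ) = -y.1 + ((-(l * j') : ℤ) : ℚ) := by
      push_cast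
      linear_combination (-(l : ℚ)) * hj'
    have f1 := fract_eq_of_int e1
    have f2 := fract_eq_of_int e2
    rcases good_or e3 e4 h1 with ⟨g1, g2⟩ | ⟨g1, g2⟩
    · refine ⟨(n : ℤ) * l, 1, isCoprime_one_right, ?_, ?_, ?_, ?_⟩
      · have := (hl 0 1 (by norm_num) (Or.inl rfl)).1
        push_cast
        linarith
      · have := (hl 0 1 (by norm_num) (Or.inl rfl)).2
        push_cast
        linarith
      · rw [f1]
        exact g1
      · rw [f1, f2]
        exact g2
    · refine ⟨(n : ℤ) * l, -1, isCoprime_one_right.neg_right, ?_, ?_, ?_, ?_⟩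
      · have := (hl 0 (-1) (by norm_num) (Or.inr (Or.inl rfl))).1
        push_cast
        linarith
      · have := (hl 0 (-1) (by norm_num) (Or.inr (Or.inl rfl))).2
        push_cast
        linarith
      · exact g1
      · exact g2
  · -- use `(n l - 1, n)` and `(1, 0)`
    have e1 : p.1 * ((n : ℤ) : ℚ) - p.2 * (((n : ℤ) * l - 1 : ℤ) : ℚ)
        = p.2 + ((i - l * j : ℤ) : ℚ) := by
      push_cast
      linear_combination hi - (l : ℚ) * hj
    have e2 : y.1 * ((n : ℤ) : ℚ) - y.2 * (((n : ℤ) * l - 1 : ℤ) : ℚ)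
        = y.2 + ((i' - l * j' : ℤ) : ℚ) := by
      push_cast
      linear_combination hi' - (l : ℚ) * hj'
    have e3 : p.1 * ((0 : ℤ) : ℚ) - p.2 * ((1 : ℤ) : ℚ) = -p.2 + ((0 : ℤ) : ℚ) := by
      push_cast
      ring
    have e4 : y.1 * ((0 : ℤ) : ℚ) - y.2 * ((1 : ℤ) : ℚ) = -y.2 + ((0 : ℤ) : ℚ) := by
      push_cast
      ring
    have f1 := fract_eq_of_int e1
    have f2 := fract_eq_of_int e2
    rcases good_or e3 e4 h2 with ⟨g1, g2⟩ | ⟨g1, g2⟩
    · refine ⟨(n : ℤ) * l - 1, n, ?_, ?_, ?_, ?_, ?_⟩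
      · exact ⟨-1, l, by ring⟩
      · have := (hl (-1) n (by norm_num) (Or.inr (Or.inr rfl))).1
        push_cast
        linarith
      · have := (hl (-1) n (by norm_num) (Or.inr (Or.inr rfl))).2
        push_cast
        linarith
      · rw [f1]
        exact g1
      · rw [f1, f2]
        exact g2
    · refine ⟨1, 0, isCoprime_one_left, by norm_num, by norm_num, g1, g2⟩

/-! ### The strict version used with THEOREM S -/

theorem good_or_strict {a b a' b' : ℚ} {k l : ℤ} (ha : a' = -a + k) (hb : b' = -b + l)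
    (h0 : Int.fract a ≠ 0) (h1 : Int.fract (a + b) ≠ 0) :
    (0 < Int.fract a ∧ Int.fract a + Int.fract b < 1) ∨
      (0 < Int.fract a' ∧ Int.fract a' + Int.fract b' < 1) := by
  have pos : 0 < Int.fract a := lt_of_le_of_ne (Int.fract_nonneg a) (Ne.symm h0)
  have hne : Int.fract a + Int.fract b ≠ 1 := by
    intro h
    apply h1
    have e : a + b = ((⌊a⌋ + ⌊b⌋ + 1 : ℤ) : ℚ) := by
      push_cast
      have e1 := Int.floor_add_fract a
      have e2 := Int.floor_add_fract b
      linarith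
    rw [e, Int.fract_intCast]
  rcases lt_or_gt_of_ne hne with h | h
  · exact Or.inl ⟨pos, h⟩
  · right
    have fa : Int.fract a' = 1 - Int.fract a := by
      rw [fract_neg_int ha, Int.fract_neg h0]
    have hb0 : Int.fract b ≠ 0 := by
      intro h2
      rw [h2, add_zero] at h
      exact absurd (Int.fract_lt_one a) (not_lt.2 h.le)
    have fb : Int.fract b' = 1 - Int.fract b := by
      rw [fract_neg_int hb, Int.fract_neg hb0]
    rw [fa, fb]
    refine ⟨by linarith [Int.fract_lt_one a], by linarith⟩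

theorem fract_ne_of {x : ℚ} (h : ¬ ∃ i : ℤ, x = i) : Int.fract x ≠ 0 := by
  intro h0
  apply h
  refine ⟨⌊x⌋, ?_⟩
  have := Int.floor_add_fract x
  rw [h0, add_zero] at this
  exact this.symm

theorem exists_int_of_fract {x : ℚ} (h : Int.fract x = 0) : ∃ i : ℤ, x = i := by
  refine ⟨⌊x⌋, ?_⟩
  have := Int.floor_add_fract x
  rw [h, add_zero] at this
  exact this.symm

/-- **(S7), strict version.**  `ρ_x = u x₂ - v x₁ = det (u,v) x`. -/
theorem exists_ray_strict (θ θ' : ℝ) (n : ℕ) (hn : 0 < n) (p y : ℚ × ℚ)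
    (hp : ∃ i j : ℤ, (n : ℚ) * p.1 = i ∧ (n : ℚ) * p.2 = j)
    (hy : ∃ i j : ℤ, (n : ℚ) * y.1 = i ∧ (n : ℚ) * y.2 = j)
    (hp0 : ¬ ∃ i j : ℤ, p.1 = i ∧ p.2 = j)
    (hq0 : ¬ ∃ i j : ℤ, p.1 + y.1 = i ∧ p.2 + y.2 = j) :
    ∃ u v : ℤ, IsCoprime u v ∧ 0 < (u : ℝ) + v * θ ∧ 0 < (u : ℝ) + v * θ' ∧
      0 < Int.fract (u * p.2 - v * p.1) ∧
      Int.fract (u * p.2 - v * p.1) + Int.fract (u * y.2 - v * y.1) < 1 := by
  obtain ⟨i, j, hi, hj⟩ := hp
  obtain ⟨i', j', hi', hj'⟩ := hy
  obtain ⟨l, hl⟩ := exists_large θ θ' n hn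
  by_cases h2 : Int.fract p.2 ≠ 0 ∧ Int.fract (p.2 + y.2) ≠ 0
  · -- class `(1,0)`: use `(1, 0)` and `(n l - 1, n)`
    have e1 : (((n : ℤ) * l - 1 : ℤ) : ℚ) * p.2 - ((n : ℤ) : ℚ) * p.1
        = -p.2 + ((l * j - i : ℤ) : ℚ) := by
      push_cast
      linear_combination (l : ℚ) * hj - hi
    have e2 : (((n : ℤ) * l - 1 : ℤ) : ℚ) * y.2 - ((n : ℤ) : ℚ) * y.1
        = -y.2 + ((l * j' - i' : ℤ) : ℚ) := by
      push_cast
      linear_combination (l : ℚ) * hj' - hi'
    rcases good_or_strict e1 e2 h2.1 h2.2 with ⟨g1, g2⟩ | ⟨g1, g2⟩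
    · refine ⟨1, 0, isCoprime_one_left, by norm_num, by norm_num, ?_, ?_⟩
      · have e3 : ((1 : ℤ) : ℚ) * p.2 - ((0 : ℤ) : ℚ) * p.1 = p.2 := by push_cast; ring
        rw [e3]
        exact g1
      · have e3 : ((1 : ℤ) : ℚ) * p.2 - ((0 : ℤ) : ℚ) * p.1 = p.2 := by push_cast; ring
        have e4 : ((1 : ℤ) : ℚ) * y.2 - ((0 : ℤ) : ℚ) * y.1 = y.2 := by push_cast; ring
        rw [e3, e4]
        exact g2
    · refine ⟨(n : ℤ) * l - 1, n, ⟨-1, l, by ring⟩, ?_, ?_, g1, g2⟩
      · have := (hl (-1) n (by norm_num) (Or.inr (Or.inr rfl))).1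
        push_cast
        linarith
      · have := (hl (-1) n (by norm_num) (Or.inr (Or.inr rfl))).2
        push_cast
        linarith
  · by_cases h1 : Int.fract p.1 ≠ 0 ∧ Int.fract (p.1 + y.1) ≠ 0
    · -- class `(0,1)`: use `(n l, -1)` (value `x₁`) and `(n l, 1)` (value `-x₁`)
      have e1 : (((n : ℤ) * l : ℤ) : ℚ) * p.2 - ((1 : ℤ) : ℚ) * p.1
          = -p.1 + ((l * j : ℤ) : ℚ) := by
        push_cast
        linear_combination (l : ℚ) * hj
      have e2 : (((n : ℤ) * l : ℤ) : ℚ) * y.2 - ((1 : ℤ) : ℚ) * y.1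
          = -y.1 + ((l * j' : ℤ) : ℚ) := by
        push_cast
        linear_combination (l : ℚ) * hj'
      have e3 : (((n : ℤ) * l : ℤ) : ℚ) * p.2 - ((-1 : ℤ) : ℚ) * p.1
          = p.1 + ((l * j : ℤ) : ℚ) := by
        push_cast
        linear_combination (l : ℚ) * hj
      have e4 : (((n : ℤ) * l : ℤ) : ℚ) * y.2 - ((-1 : ℤ) : ℚ) * y.1
          = y.1 + ((l * j' : ℤ) : ℚ) := by
        push_cast
        linear_combination (l : ℚ) * hj'
      have f3 := fract_eq_of_int e3
      have f4 := fract_eq_of_int e4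
      rcases good_or_strict e1 e2 h1.1 h1.2 with ⟨g1, g2⟩ | ⟨g1, g2⟩
      · refine ⟨(n : ℤ) * l, -1, isCoprime_one_right.neg_right, ?_, ?_, ?_, ?_⟩
        · have := (hl 0 (-1) (by norm_num) (Or.inr (Or.inl rfl))).1
          push_cast
          linarith
        · have := (hl 0 (-1) (by norm_num) (Or.inr (Or.inl rfl))).2
          push_cast
          linarith
        · rw [f3]
          exact g1
        · rw [f3, f4]
          exact g2
      · refine ⟨(n : ℤ) * l, 1, isCoprime_one_right, ?_, ?_, g1, g2⟩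
        · have := (hl 0 1 (by norm_num) (Or.inl rfl)).1
          push_cast
          linarith
        · have := (hl 0 1 (by norm_num) (Or.inl rfl)).2
          push_cast
          linarith
    · -- class `(1,1)`
      have hA : Int.fract p.2 = 0 ∨ Int.fract (p.2 + y.2) = 0 := by
        by_contra h
        push Not at h
        exact h2 h
      have hB : Int.fract p.1 = 0 ∨ Int.fract (p.1 + y.1) = 0 := by
        by_contra h
        push Not at h
        exact h1 h
      have key : Int.fract (p.2 - p.1) ≠ 0 ∧ Int.fract ((p.2 - p.1) + (y.2 - y.1)) ≠ 0 := by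
        rcases hA with hA | hA
        · obtain ⟨k, hk⟩ := exists_int_of_fract hA
          rcases hB with hB | hB
          · exfalso
            obtain ⟨k', hk'⟩ := exists_int_of_fract hB
            exact hp0 ⟨k', k, hk', hk⟩
          · obtain ⟨k', hk'⟩ := exists_int_of_fract hB
            constructor
            · intro h
              obtain ⟨r, hr⟩ := exists_int_of_fract h
              exact hp0 ⟨k - r, k, by push_cast; linarith, hk⟩
            · intro h
              obtain ⟨r, hr⟩ := exists_int_of_fract h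
              exact hq0 ⟨k', r + k', hk', by push_cast; linarith⟩
        · obtain ⟨k, hk⟩ := exists_int_of_fract hA
          rcases hB with hB | hB
          · obtain ⟨k', hk'⟩ := exists_int_of_fract hB
            constructor
            · intro h
              obtain ⟨r, hr⟩ := exists_int_of_fract h
              exact hp0 ⟨k', r + k', hk', by push_cast; linarith⟩
            · intro h
              obtain ⟨r, hr⟩ := exists_int_of_fract h
              exact hq0 ⟨k - r, k, by push_cast; linarith, hk⟩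
          · exfalso
            obtain ⟨k', hk'⟩ := exists_int_of_fract hB
            exact hq0 ⟨k', k, hk', hk⟩
      have e1 : (((n : ℤ) * l + 1 : ℤ) : ℚ) * p.2 - ((1 : ℤ) : ℚ) * p.1
          = (p.2 - p.1) + ((l * j : ℤ) : ℚ) := by
        push_cast
        linear_combination (l : ℚ) * hj
      have e2 : (((n : ℤ) * l + 1 : ℤ) : ℚ) * y.2 - ((1 : ℤ) : ℚ) * y.1
          = (y.2 - y.1) + ((l * j' : ℤ) : ℚ) := by
        push_cast
        linear_combination (l : ℚ) * hj'
      have e3 : (((n : ℤ) * l - 1 : ℤ) : ℚ) * p.2 - ((-1 : ℤ) : ℚ) * p.1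
          = -(p.2 - p.1) + ((l * j : ℤ) : ℚ) := by
        push_cast
        linear_combination (l : ℚ) * hj
      have e4 : (((n : ℤ) * l - 1 : ℤ) : ℚ) * y.2 - ((-1 : ℤ) : ℚ) * y.1
          = -(y.2 - y.1) + ((l * j' : ℤ) : ℚ) := by
        push_cast
        linear_combination (l : ℚ) * hj'
      have f1 := fract_eq_of_int e1
      have f2 := fract_eq_of_int e2
      rcases good_or_strict e3 e4 key.1 key.2 with ⟨g1, g2⟩ | ⟨g1, g2⟩
      · refine ⟨(n : ℤ) * l + 1, 1, isCoprime_one_right, ?_, ?_, ?_, ?_⟩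
        · have := (hl 1 1 (by norm_num) (Or.inl rfl)).1
          push_cast
          linarith
        · have := (hl 1 1 (by norm_num) (Or.inl rfl)).2
          push_cast
          linarith
        · rw [f1]
          exact g1
        · rw [f1, f2]
          exact g2
      · refine ⟨(n : ℤ) * l - 1, -1, isCoprime_one_right.neg_right, ?_, ?_, g1, g2⟩
        · have := (hl (-1) (-1) (by norm_num) (Or.inr (Or.inl rfl))).1
          push_cast
          linarith
        · have := (hl (-1) (-1) (by norm_num) (Or.inr (Or.inl rfl))).2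
          push_cast
          linarith

end Pool.Agent.MP_d0f9e0_co.AN45
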