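import Pool.Agent.Lib.MP_d0f9e0_co.AN45.Pts

/-!
# (S5): the torsion points inside `H = ℂ × ℤ/c`

Coordinates of `SH`: `v = (v₁, v₂) ↔ v₁ + v₂ β`, `η (v₁,v₂) = (d v₁ + b v₂, c v₁ + a v₂)`,
`η = c β + d`.  For `x ∈ ℚ²` put `z_x = x₂ (η-1)/c`, `m_x = c x₁ + (a-1) x₂`,
`N_x = (d-1) x₁ + b x₂`, so `(η-1) x = (N_x, m_x)`.
-/

set_option autoImplicit false

namespace Pool.Agent.MP_d0f9e0_co.AN45

open Pool.MP_d0f9e0_co.SH Set

/-- the matrix data with its fixed point: `β` is the fixed point and `η = c β + d` -/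
structure Mat (a b c d : ℤ) (β η : ℝ) : Prop where
  det : a * d - b * c = 1
  cpos : 0 < c
  one_lt : 1 < η
  eta : η = c * β + d
  fix : η * β = a * β + b

/-- second coordinate of `(η-1)x` -/
def mq (a c : ℤ) (x : V) : ℚ := c * x.1 + (a - 1) * x.2

/-- first coordinate of `(η-1)x` -/
def Nq (b d : ℤ) (x : V) : ℚ := (d - 1) * x.1 + b * x.2

/-- the coordinate `z_x` -/
noncomputable def zt (c : ℤ) (η : ℝ) (x : V) : ℝ := x.2 * ((η - 1) / c)

section
variable {a b c d : ℤ} {β η : ℝ} (h : Mat a b c d β η)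
include h

theorem Mat.cR : (c : ℝ) ≠ 0 := by exact_mod_cast h.cpos.ne'

theorem Mat.cRpos : (0 : ℝ) < c := by exact_mod_cast h.cpos

theorem Mat.etapos : 0 < η := by linarith [h.one_lt]

theorem Mat.detR : (a : ℝ) * d - b * c = 1 := by exact_mod_cast h.det

theorem Mat.quad : η * η = (a + d) * η - 1 := by
  have h1 := h.eta
  have h2 := h.fix
  have h3 := h.detR
  have hc := h.cR
  have hβ : (c : ℝ) * β = η - d := by rw [h1]; ring
  -- `c η β = a c β + b c`
  have e : η * (c * β) = a * (c * β) + b * c := by linear_combination (c : ℝ) * h2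
  rw [hβ] at e
  linear_combination e - h3

/-- `n = η + 1/η - 2 = a + d - 2` in the form `(η-1)² = n η` -/
theorem Mat.sq_eq : (η - 1) * (η - 1) = (a + d - 2) * η := by
  linear_combination h.quad

theorem Mat.inv_eq : 1 / η = a + d - η := by
  have := h.quad
  have hη := h.etapos
  rw [div_eq_iff hη.ne']
  linear_combination this

theorem Mat.npos : 0 < a + d - 2 := by
  have h1 := h.sq_eq
  have h2 := h.one_lt
  have h3 : 0 < (η - 1) * (η - 1) := mul_pos (by linarith) (by linarith)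
  rw [h1] at h3
  have h4 : (0 : ℝ) < a + d - 2 := pos_of_mul_pos_left h3 h.etapos.le
  have h5 : (0 : ℝ) < ((a + d - 2 : ℤ) : ℝ) := by push_cast; exact h4
  exact_mod_cast h5

/-- `X~ = z/η + m/c` is `x₁ + x₂ β` exactly -/
theorem Mat.Xt (x : V) : zt c η x / η + ((mq a c x : ℚ) : ℝ) / c = ell β x := by
  have hc := h.cR
  have hη := h.etapos.ne'
  have h1 := h.inv_eq
  have h2 := h.eta
  unfold zt mq ell
  push_cast
  have e1 : (x.2 : ℝ) * ((η - 1) / c) / η = x.2 * (1 - 1 / η) / c := by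
    field_simp
  rw [e1, h1]
  field_simp
  linear_combination (x.2 : ℝ) * h2

/-- `X = z + d m/c` is `x₁ + x₂ β + N_x` -/
theorem Mat.X (x : V) :
    zt c η x + d * ((mq a c x : ℚ) : ℝ) / c = ell β x + ((Nq b d x : ℚ) : ℝ) := by
  have hc := h.cR
  have h2 := h.eta
  have h3 := h.detR
  unfold zt mq Nq ell
  push_cast
  field_simp
  linear_combination (x.2 : ℝ) * h2 + (x.2 : ℝ) * h3

/-- the kernel `c z_x z_y/η - d m_x m_y/c` -/
theorem Mat.kernel (x y : V) :
    (c : ℝ) * zt c η x * zt c η y / η - d * ((mq a c x : ℚ) : ℝ) * ((mq a c y : ℚ) : ℝ) / c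
      = ((Nq b d x * y.2 - mq a c x * y.1 : ℚ) : ℝ) - ((mq a c x * Nq b d y : ℚ) : ℝ) := by
  have hc := h.cR
  have hη := h.etapos.ne'
  have h1 := h.sq_eq
  have h3 := h.detR
  have e1 : (c : ℝ) * zt c η x * zt c η y / η = (a + d - 2) * x.2 * y.2 / c := by
    unfold zt
    have : (c : ℝ) * (x.2 * ((η - 1) / c)) * (y.2 * ((η - 1) / c)) / η
        = ((η - 1) * (η - 1)) * x.2 * y.2 / (c * η) := by
      field_simp
    rw [this, h1]
    field_simp
  rw [e1]
  unfold mq Nq
  push_cast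
  field_simp
  linear_combination ((y.2 : ℝ) * (x.2 - (c * x.1 + (a - 1) * x.2))) * h3

/-! ### The inverse: a pair of integers `(N, m)` gives a point -/

/-- the point with `(η-1) x = (N, m)` -/
def ptNm (a b c d : ℤ) (N m : ℤ) : V :=
  ((((b : ℚ) * m - (a - 1) * N) / (a + d - 2)), ((c * N - (d - 1) * m) / (a + d - 2)))

theorem Mat.nQ : ((a : ℚ) + d - 2) ≠ 0 := by
  have := h.npos
  have h1 : ((a + d - 2 : ℤ) : ℚ) ≠ 0 := by exact_mod_cast this.ne'
  push_cast at h1
  exact h1

theorem Mat.detQ : (a : ℚ) * d - b * c = 1 := by exact_mod_cast h.det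

theorem Mat.mq_ptNm (N m : ℤ) : mq a c (ptNm a b c d N m) = m := by
  have hn := h.nQ
  have h3 := h.detQ
  unfold mq ptNm
  simp only
  field_simp
  linear_combination (-(m : ℚ)) * h3

theorem Mat.Nq_ptNm (N m : ℤ) : Nq b d (ptNm a b c d N m) = N := by
  have hn := h.nQ
  have h3 := h.detQ
  unfold Nq ptNm
  simp only
  field_simp
  linear_combination (-(N : ℚ)) * h3

theorem Mat.eq_ptNm (x : V) {N m : ℤ} (hm : mq a c x = m) (hN : Nq b d x = N) :
    x = ptNm a b c d N m := by
  have hn := h.nQ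
  have h3 := h.detQ
  unfold mq at hm
  unfold Nq at hN
  refine Prod.ext ?_ ?_
  · show x.1 = ((b : ℚ) * m - (a - 1) * N) / (a + d - 2)
    rw [eq_div_iff hn, ← hm, ← hN]
    linear_combination x.1 * h3
  · show x.2 = (c * N - (d - 1) * m) / (a + d - 2)
    rw [eq_div_iff hn, ← hm, ← hN]
    linear_combination x.2 * h3

/-! ### The torsion points -/

omit h in
/-- `x` is `η`-fixed modulo `ℤ²` -/
def Tor (a b c d : ℤ) (x : V) : Prop := ∃ N m : ℤ, Nq b d x = N ∧ mq a c x = m

omit h in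
theorem Tor.shift {x : V} (hx : Tor a b c d x) (i j : ℤ) :
    Tor a b c d (x + ((i : ℚ), (j : ℚ))) := by
  obtain ⟨N, m, h1, h2⟩ := hx
  refine ⟨N + (d - 1) * i + b * j, m + c * i + (a - 1) * j, ?_, ?_⟩
  · rw [← sub_eq_zero] at h1 ⊢
    unfold Nq at h1 ⊢
    simp only [Prod.fst_add, Prod.snd_add]
    push_cast
    linear_combination h1
  · rw [← sub_eq_zero] at h2 ⊢
    unfold mq at h2 ⊢
    simp only [Prod.fst_add, Prod.snd_add]
    push_cast
    linear_combination h2

omit h in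
theorem mq_shift (x : V) (i j : ℤ) :
    mq a c (x + ((i : ℚ), (j : ℚ))) = mq a c x + c * i + (a - 1) * j := by
  unfold mq
  simp only [Prod.fst_add, Prod.snd_add]
  ring

omit h in
theorem Nq_shift (x : V) (i j : ℤ) :
    Nq b d (x + ((i : ℚ), (j : ℚ))) = Nq b d x + (d - 1) * i + b * j := by
  unfold Nq
  simp only [Prod.fst_add, Prod.snd_add]
  ring

omit h in
theorem zt_shift (x : V) (i j : ℤ) :
    zt c η (x + ((i : ℚ), (j : ℚ))) = zt c η x + j * ((η - 1) / c) := by
  unfold zt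
  simp only [Prod.snd_add]
  push_cast
  ring

theorem Mat.etam : (η - 1) ≠ 0 := by
  have := h.one_lt
  intro h0
  linarith

/-- the condition `X = X~ + N` determines `z` -/
theorem Mat.z_iff (z : ℂ) (N m : ℤ) :
    z + d * m / c - (z / η + m / c) = N ↔ z = (zt c η (ptNm a b c d N m) : ℝ) := by
  have hc : (c : ℂ) ≠ 0 := by exact_mod_cast h.cR
  have hη : (η : ℂ) ≠ 0 := by exact_mod_cast h.etapos.ne'
  have hη1 : (η : ℂ) - 1 ≠ 0 := by exact_mod_cast h.etam
  have e1 := h.Xt (ptNm a b c d N m)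
  have e2 := h.X (ptNm a b c d N m)
  rw [h.mq_ptNm] at e1 e2
  rw [h.Nq_ptNm] at e2
  set w : ℝ := zt c η (ptNm a b c d N m) with hw
  have e3 : (w : ℂ) + d * m / c - (w / η + m / c) = N := by
    have e4 : w + d * ((m : ℚ) : ℝ) / c - (w / η + ((m : ℚ) : ℝ) / c) = ((N : ℚ) : ℝ) := by
      rw [e1, e2]
      ring
    have e5 := congrArg (fun t : ℝ => (t : ℂ)) e4
    push_cast at e5
    exact e5
  constructor
  · intro e
    have e6 : (z - w) * (1 - 1 / η) = 0 := by
      have : (z - w) * (1 - 1 / η) = (z + d * m / c - (z / η + m / c)) -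
          ((w : ℂ) + d * m / c - (w / η + m / c)) := by
        field_simp
        ring
      rw [this, e, e3, sub_self]
    have e7 : (1 : ℂ) - 1 / η ≠ 0 := by
      intro e8
      apply hη1
      have : (η : ℂ) * (1 - 1 / η) = 0 := by rw [e8, mul_zero]
      rw [mul_sub, mul_one, mul_one_div_cancel hη] at this
      exact this
    have := (mul_eq_zero.1 e6).resolve_right e7
    exact sub_eq_zero.1 this
  · rintro rfl
    exact e3

/-- **Enumeration of the poles.**  Every torsion point has exactly one representative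
`ptNm N m` with `0 ≤ m < c` and second coordinate in `(ρ, ρ+1]`. -/
theorem Mat.existsUnique_rep (ρ : ℝ) {x : V} (hx : Tor a b c d x) :
    ∃! q : ℤ × ℤ, 0 ≤ q.2 ∧ q.2 < c ∧
      ρ < ((ptNm a b c d q.1 q.2).2 : ℝ) ∧ ((ptNm a b c d q.1 q.2).2 : ℝ) ≤ ρ + 1 ∧
      ∃ i j : ℤ, ptNm a b c d q.1 q.2 = x + ((i : ℚ), (j : ℚ)) := by
  obtain ⟨N, m, h1, h2⟩ := hx
  have hc := h.cpos
  -- `j` and `i`
  set j : ℤ := ⌊ρ - x.2⌋ + 1 with hj
  have j1 : ρ < x.2 + j := by
    have := Int.lt_floor_add_one (ρ - x.2)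
    rw [hj]
    push_cast
    linarith
  have j2 : (x.2 : ℝ) + j ≤ ρ + 1 := by
    have := Int.floor_le (ρ - x.2)
    rw [hj]
    push_cast
    linarith
  have juniq : ∀ j' : ℤ, ρ < (x.2 : ℝ) + j' → (x.2 : ℝ) + j' ≤ ρ + 1 → j' = j := by
    intro j' g1 g2
    have a1 : (j' : ℝ) < j + 1 := by linarith
    have a2 : (j : ℝ) < j' + 1 := by linarith
    have a1' : j' < j + 1 := by exact_mod_cast a1
    have a2' : j < j' + 1 := by exact_mod_cast a2
    omega
  set M : ℤ := m + (a - 1) * j with hM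
  set i : ℤ := -(M / c) with hi
  have i1 : M + c * i = M % c := by
    rw [hi]
    have := Int.emod_add_mul_ediv M c
    linear_combination -this
  have hxij : x + ((i : ℚ), (j : ℚ)) = ptNm a b c d (N + (d - 1) * i + b * j) (M % c) := by
    refine h.eq_ptNm _ ?_ ?_
    · rw [mq_shift, h2, ← i1, hM]
      push_cast
      ring
    · rw [Nq_shift, h1]
      push_cast
      ring
  refine ⟨(N + (d - 1) * i + b * j, M % c), ?_, ?_⟩
  · refine ⟨Int.emod_nonneg _ hc.ne', Int.emod_lt_of_pos _ hc, ?_, ?_, i, j, ?_⟩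
    · simp only
      rw [← hxij]
      simp only [Prod.snd_add]
      push_cast
      exact j1
    · simp only
      rw [← hxij]
      simp only [Prod.snd_add]
      push_cast
      exact j2
    · exact hxij.symm
  · rintro ⟨N', m'⟩ ⟨g1, g2, g3, g4, i', j', g5⟩
    simp only at g1 g2 g3 g4 g5
    have e1 := congrArg (fun v => mq a c v) g5
    have e2 := congrArg (fun v => Nq b d v) g5
    rw [h.mq_ptNm, mq_shift, h2] at e1
    rw [h.Nq_ptNm, Nq_shift, h1] at e2
    rw [g5] at g3 g4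
    simp only [Prod.snd_add] at g3 g4
    push_cast at g3 g4
    have hjj := juniq j' g3 g4
    subst hjj
    have e1' : m' = m + c * i' + (a - 1) * j := by exact_mod_cast e1
    have e2' : N' = N + (d - 1) * i' + b * j := by exact_mod_cast e2
    have hmm : m' = M % c := by
      have : m' % c = M % c := by
        rw [e1', hM]
        have : m + c * i' + (a - 1) * j = m + (a - 1) * j + c * i' := by ring
        rw [this, Int.add_mul_emod_self_left]
      rw [← this, Int.emod_eq_of_lt g1 g2]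
    have hii : i' = i := by
      have e3 : c * i' = c * i := by
        have : m' = M + c * i' := by rw [e1', hM]; ring
        rw [hmm, ← i1] at this
        linarith
      exact mul_left_cancel₀ hc.ne' e3
    rw [e2', hmm, hii]

end

end Pool.Agent.MP_d0f9e0_co.AN45
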