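import Pool.Agent.Lib.MP_d0f9e0_co.AN45.Tor
import Pool.Agent.Lib.MP_d0f9e0_co.AN.Defs
import Pool.Agent.Lib.MP_d0f9e0_co.GH.Defs

/-!
# (S5): the values of the level `c` function at the torsion points

`E(z_x, m_x) = ζ(x) / c(x)` for `0 ≤ x₂ < 1`, where `c(x) = F S θ (x+ℤ²) (1,0) (d,c)` and
`ζ(x) = exp (i π FZ)`.
-/

set_option autoImplicit false

namespace Pool.Agent.MP_d0f9e0_co.AN45

open Pool.MP_d0f9e0_co.SH Pool.MP_d0f9e0_co.GH Set
open Pool.Agent.Lib.MP_d0f9e0_co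

section
variable {a b d : ℤ} {C : ℕ} {θ η : ℝ} (h : Mat a b (C : ℤ) d θ η)
include h

/-- the real value of `p_j` -/
theorem Mat.ell_ptj (x : V) (j k : ℤ) :
    ell θ (ptj C d x j k) = zt C η x + ((k : ℝ) * η + j) / C := by
  have hc : (C : ℝ) ≠ 0 := by
    have := h.cR
    exact_mod_cast this
  have h2 := h.eta
  unfold ell ptj zt
  push_cast at h2 ⊢
  field_simp
  linear_combination (-((x.2 : ℝ) + k)) * h2

theorem Mat.EE_eq (s : ℂ → ℂ) {x : V} {N m : ℤ} (hm : mq a C x = m) (hN : Nq b d x = N)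
    (hx0 : 0 ≤ x.2) (hx1 : x.2 < 1) :
    AN.EE s η C a (zt C η x : ℝ) m
      = ∏ᶠ p ∈ coset x ∩ Par (1, 0) (((d : ℚ), ((C : ℤ) : ℚ)) : V), s (ell θ p : ℝ) := by
  have hc : (C : ℝ) ≠ 0 := by
    have := h.cR
    exact_mod_cast this
  rw [finprod_coset h.det h.cpos (x := x) (m := m) (N := N) hm hN (fun p => s (ell θ p : ℝ))
    hx0 hx1]
  unfold AN.EE
  refine Finset.prod_bij (fun j _ => (j : ℤ)) ?_ ?_ ?_ ?_
  · intro j hj
    rw [Finset.mem_Icc] at hj ⊢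
    exact ⟨by exact_mod_cast hj.1, by exact_mod_cast hj.2⟩
  · intro j _ j' _ hjj
    exact_mod_cast hjj
  · intro j hj
    rw [Finset.mem_Icc] at hj
    refine ⟨j.toNat, ?_, ?_⟩
    · rw [Finset.mem_Icc]
      omega
    · exact Int.toNat_of_nonneg (by omega)
  · intro j hj
    congr 1
    rw [h.ell_ptj]
    unfold AN.kk
    push_cast
    ring

theorem Mat.disc_coset {x : V} (hx : Tor a b C d x) : Disc (coset x) := by
  obtain ⟨N, m, h1, h2⟩ := hx
  have hn := h.npos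
  have hx := h.eq_ptNm x h2 h1
  have hnQ := h.nQ
  refine ⟨(a + d - 2).toNat, by omega, ?_⟩
  have hcast : (((a + d - 2).toNat : ℕ) : ℚ) = (a : ℚ) + d - 2 := by
    have : (((a + d - 2).toNat : ℕ) : ℤ) = a + d - 2 := Int.toNat_of_nonneg hn.le
    have h3 : ((((a + d - 2).toNat : ℕ) : ℤ) : ℚ) = ((a + d - 2 : ℤ) : ℚ) := by rw [this]
    push_cast at h3
    exact h3
  rintro p ⟨i, j, hi, hj⟩
  have hx1 : ((a : ℚ) + d - 2) * x.1 = b * m - (a - 1) * N := by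
    rw [hx]
    unfold ptNm
    simp only
    field_simp
  have hx2 : ((a : ℚ) + d - 2) * x.2 = C * N - (d - 1) * m := by
    rw [hx]
    unfold ptNm
    simp only
    field_simp
    push_cast
    ring
  refine ⟨b * m - (a - 1) * N + (a + d - 2) * i, C * N - (d - 1) * m + (a + d - 2) * j, ?_, ?_⟩
  · rw [hcast, hi, mul_add, hx1]
    push_cast
    ring
  · rw [hcast, hj, mul_add, hx2]
    push_cast
    ring

/-- the class function in the basis vector `(1,0)` -/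
theorem Mat.EE_val {s : ℂ → ℂ} (hs : AN.SS η s) {S : ℝ → ℝ → ℝ → ℝ}
    (hS : ∀ x : ℝ, 0 < x → x < 1 + η → S 1 η x * ‖s x‖ = 1) {x : V} {N m : ℤ}
    (hm : mq a C x = m) (hN : Nq b d x = N) (hx0 : 0 ≤ x.2) (hx1 : x.2 < 1) :
    AN.EE s η C a (zt C η x : ℝ) m
      = Complex.exp (Real.pi * Complex.I * (FZ θ (coset x) (1, 0) ((d : ℚ), ((C : ℤ) : ℚ)) : ℝ)) /
        (F S θ (coset x) (1, 0) ((d : ℚ), ((C : ℤ) : ℚ)) : ℝ) := by
  have hdisc := h.disc_coset ⟨N, m, hN, hm⟩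
  rw [h.EE_eq s hm hN hx0 hx1]
  unfold F FZ
  have hfin := finite_inter hdisc (1, 0) (((d : ℚ), ((C : ℤ) : ℚ)) : V)
  have l2 : ell θ (((d : ℚ), ((C : ℤ) : ℚ)) : V) = η := by
    have h2 := h.eta
    unfold ell
    push_cast at h2 ⊢
    rw [h2]
    ring
  generalize (((d : ℚ), ((C : ℤ) : ℚ)) : V) = w at hfin l2 ⊢
  rw [finprod_mem_eq_finite_toFinset_prod _ hfin, finprod_mem_eq_finite_toFinset_prod _ hfin,
    finsum_mem_eq_finite_toFinset_sum _ hfin]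
  have l1 : ell θ ((1, 0) : V) = 1 := by
    unfold ell
    push_cast
    ring
  have hv : 0 < ell θ ((1, 0) : V) := by rw [l1]; exact one_pos
  have hw : 0 < ell θ w := by rw [l2]; exact h.etapos
  rw [eq_div_iff]
  · rw [Complex.ofReal_prod, ← Finset.prod_mul_distrib]
    push_cast
    rw [Finset.mul_sum, Complex.exp_sum]
    refine Finset.prod_congr rfl fun p hp => ?_
    rw [Finite.mem_toFinset] at hp
    obtain ⟨g1, g2⟩ := ell_mem hv hw hp.2
    rw [l1, l2] at g2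
    rw [l1, l2]
    have e1 := hs.real (ell θ p) g1 g2
    have e2 := hS (ell θ p) g1 g2
    rw [e1]
    have e3 : ((S 1 η (ell θ p) : ℝ) : ℂ) * ((‖s (ell θ p)‖ : ℝ) : ℂ) = 1 := by
      rw [← Complex.ofReal_mul, e2, Complex.ofReal_one]
    have e4 : (Real.pi : ℂ) * Complex.I * AN.B22 η (ell θ p) / 2
        = Real.pi * Complex.I * ((Pool.MP_d0f9e0_co.GH.B22 1 η (ell θ p) : ℝ) / 2) := by
      unfold AN.B22 Pool.MP_d0f9e0_co.GH.B22
      have hη : (η : ℂ) ≠ 0 := by exact_mod_cast h.etapos.ne'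
      push_cast
      field_simp
    rw [e4]
    calc ((‖s (ell θ p)‖ : ℝ) : ℂ) *
          Complex.exp (Real.pi * Complex.I * ((Pool.MP_d0f9e0_co.GH.B22 1 η (ell θ p) : ℝ) / 2)) *
          ((S 1 η (ell θ p) : ℝ) : ℂ)
        = (((S 1 η (ell θ p) : ℝ) : ℂ) * ((‖s (ell θ p)‖ : ℝ) : ℂ)) *
          Complex.exp (Real.pi * Complex.I * ((Pool.MP_d0f9e0_co.GH.B22 1 η (ell θ p) : ℝ) / 2)) := by ring
      _ = _ := by rw [e3, one_mul]
  · rw [Complex.ofReal_ne_zero]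
    refine Finset.prod_ne_zero_iff.2 fun p hp => ?_
    rw [Finite.mem_toFinset] at hp
    obtain ⟨g1, g2⟩ := ell_mem hv hw hp.2
    rw [l1, l2] at g2
    rw [l1, l2]
    intro h0
    have e2 := hS (ell θ p) g1 g2
    rw [h0, zero_mul] at e2
    exact zero_ne_one e2

end

end Pool.Agent.MP_d0f9e0_co.AN45
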